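import Mathlib

/-!
# WL-Choice: the choice of the power
-/

set_option autoImplicit false

namespace Pool.Agent.Helper25.WL

/-- The exponent where the mean value theorem starts to be sufficient. -/
noncomputable def alp (g : ℝ) : ℝ := (1 - 27 * g / 11) / (1 - 2 * g)

lemma alp_le {g : ℝ} (h1 : 11 / 54 ≤ g) (h2 : g < 11 / 27) : alp g ≤ 27 / 32 := by
  unfold alp
  rw [div_le_iff₀ (by linarith)]
  linarith

lemma alp_pos {g : ℝ} (h2 : g < 11 / 27) : 0 < alp g := by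
  unfold alp
  apply div_pos <;> linarith

lemma alp_le' {g : ℝ} (h1 : 2 / 9 ≤ g) (h2 : g < 11 / 27) : alp g ≤ 9 / 11 := by
  unfold alp
  rw [div_le_iff₀ (by linarith)]
  linarith

lemma alp_mul {g : ℝ} (h2 : g < 11 / 27) : alp g * (2 * g - 1) = 27 / 11 * g - 1 := by
  unfold alp
  have : 1 - 2 * g ≠ 0 := by intro h; linarith
  rw [div_mul_eq_mul_div, div_eq_iff this]
  ring

/-- The choice of the power. -/
lemma choice {M Q α : ℝ} (hM : 1 ≤ M) (hQ : 1 ≤ Q) (hM2 : M ^ 2 ≤ 4 * Q) (hα : α ≤ 27 / 32) (hα0 : 0 < α)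
    {J0 : ℕ} (hJ1 : 1 ≤ J0) (hJ : Q ^ α ≤ M ^ J0) :
    ∃ j : ℕ, 1 ≤ j ∧ j ≤ J0 ∧ Q ^ α ≤ M ^ j ∧
      (M ^ j ≤ 4 * Q ^ (27 / 22 : ℝ) ∨
        (3 ≤ J0 ∧ 9 / 11 < α ∧ Q ^ (9 / 11 : ℝ) ≤ M ^ 2 ∧ M ^ 2 ≤ Q ^ α)) := by
  classical
  have hex : ∃ j : ℕ, 1 ≤ j ∧ Q ^ α ≤ M ^ j := ⟨J0, hJ1, hJ⟩
  have hQ0 : 0 < Q := by linarith
  have hM0 : 0 < M := by linarith
  have hQ1 : Q ≤ Q ^ (27 / 22 : ℝ) := by
    calc Q = Q ^ (1 : ℝ) := (Real.rpow_one Q).symm
      _ ≤ Q ^ (27 / 22 : ℝ) := Real.rpow_le_rpow_of_exponent_le hQ (by norm_num)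
  obtain ⟨j, hjdef⟩ : ∃ j, j = Nat.find hex := ⟨_, rfl⟩
  have hj := Nat.find_spec hex
  have hmin : ∀ i, 1 ≤ i → i < j → M ^ i < Q ^ α := by
    intro i hi hij
    rw [hjdef] at hij
    have := Nat.find_min hex hij
    rw [not_and, not_le] at this
    exact this hi
  have hjJ : j ≤ J0 := by
    rw [hjdef]
    exact Nat.find_min' hex ⟨hJ1, hJ⟩
  rw [← hjdef] at hj
  refine ⟨j, hj.1, hjJ, hj.2, ?_⟩
  rcases Nat.lt_or_ge j 3 with h3 | h3
  · left
    rcases (by omega : j = 1 ∨ j = 2) with h | h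
    · rw [h, pow_one]
      nlinarith
    · rw [h]
      linarith
  · rcases Nat.lt_or_ge j 4 with h4 | h4
    · have hj3 : j = 3 := by omega
      rcases le_or_gt (M ^ 3) (Q ^ (27 / 22 : ℝ)) with h5 | h5
      · left
        rw [hj3]
        have : 0 ≤ Q ^ (27 / 22 : ℝ) := by positivity
        linarith
      · right
        have h6 := hmin 2 (by norm_num) (by omega)
        have hM23 : M ^ 2 = (M ^ 3) ^ (2 / 3 : ℝ) := by
          rw [← Real.rpow_natCast, ← Real.rpow_natCast, ← Real.rpow_mul hM0.le]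
          norm_num
        have h7 : Q ^ (9 / 11 : ℝ) ≤ M ^ 2 := by
          rw [hM23]
          calc Q ^ (9 / 11 : ℝ) = (Q ^ (27 / 22 : ℝ)) ^ (2 / 3 : ℝ) := by
                rw [← Real.rpow_mul hQ0.le]; norm_num
            _ ≤ (M ^ 3) ^ (2 / 3 : ℝ) := Real.rpow_le_rpow (by positivity) h5.le (by norm_num)
        refine ⟨by omega, ?_, h7, h6.le⟩
        by_contra h8
        rw [not_lt] at h8
        have h9 : Q ^ α ≤ Q ^ (9 / 11 : ℝ) := Real.rpow_le_rpow_of_exponent_le hQ h8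
        linarith
    · left
      have h5 := hmin (j - 1) (by omega) (by omega)
      have e1 : M ^ j = M ^ (j - 1) * M := by
        rw [← pow_succ]
        congr 1
        omega
      have e2 : M ^ 3 ≤ M ^ (j - 1) := pow_le_pow_right₀ hM (by omega)
      have e3 : M = (M ^ 3) ^ (1 / 3 : ℝ) := by
        rw [← Real.rpow_natCast, ← Real.rpow_mul hM0.le]
        norm_num
      have e4 : M ≤ (Q ^ α) ^ (1 / 3 : ℝ) := by
        rw [e3]
        exact Real.rpow_le_rpow (by positivity) (e2.trans h5.le) (by norm_num)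
      calc M ^ j = M ^ (j - 1) * M := e1
        _ ≤ Q ^ α * (Q ^ α) ^ (1 / 3 : ℝ) := mul_le_mul h5.le e4 hM0.le (by positivity)
        _ = Q ^ (α * (4 / 3)) := by
            rw [← Real.rpow_mul hQ0.le, ← Real.rpow_add hQ0]
            congr 1
            ring
        _ ≤ Q ^ (27 / 22 : ℝ) := Real.rpow_le_rpow_of_exponent_le hQ (by linarith)
        _ ≤ 4 * Q ^ (27 / 22 : ℝ) := by
            have : 0 ≤ Q ^ (27 / 22 : ℝ) := by positivity
            linarith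

/-- The two terms of the mean value theorem. -/
lemma terms1 {Q Y g : ℝ} (hQ : 1 ≤ Q) (hY : 1 ≤ Y) (hg : 11 / 54 ≤ g) (hg2 : g < 11 / 27)
    (h1 : Q ^ (alp g) ≤ Y) (h2 : Y ≤ 4 * Q ^ (27 / 22 : ℝ)) :
    Q * Y ^ (2 * g - 1) + Y ^ (2 * g) ≤ 5 * Q ^ (27 / 11 * g) := by
  have hQ0 : 0 < Q := by linarith
  have hY0 : 0 < Y := by linarith
  have e1 : Q * Y ^ (2 * g - 1) ≤ Q ^ (27 / 11 * g) := by
    calc Q * Y ^ (2 * g - 1) ≤ Q * (Q ^ alp g) ^ (2 * g - 1) := by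
          apply mul_le_mul_of_nonneg_left _ hQ0.le
          exact Real.rpow_le_rpow_of_nonpos (by positivity) h1 (by linarith)
      _ = Q ^ (27 / 11 * g) := by
          rw [← Real.rpow_mul hQ0.le, alp_mul hg2]
          nth_rewrite 1 [← Real.rpow_one Q]
          rw [← Real.rpow_add hQ0]
          congr 1
          ring
  have e2 : Y ^ (2 * g) ≤ 4 * Q ^ (27 / 11 * g) := by
    calc Y ^ (2 * g) ≤ (4 * Q ^ (27 / 22 : ℝ)) ^ (2 * g) :=
          Real.rpow_le_rpow hY0.le h2 (by linarith)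
      _ = 4 ^ (2 * g) * Q ^ (27 / 11 * g) := by
          rw [Real.mul_rpow (by norm_num) (by positivity), ← Real.rpow_mul hQ0.le]
          congr 2
          ring
      _ ≤ 4 ^ (1 : ℝ) * Q ^ (27 / 11 * g) := by
          apply mul_le_mul_of_nonneg_right _ (by positivity)
          exact Real.rpow_le_rpow_of_exponent_le (by norm_num) (by linarith)
      _ = 4 * Q ^ (27 / 11 * g) := by rw [Real.rpow_one]
  linarith

/-- The two terms of Huxley's bound. -/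
lemma terms2 {Q Y g : ℝ} (hQ : 1 ≤ Q) (hY : 1 ≤ Y) (hg : 11 / 54 ≤ g) (hg2 : g < 2 / 9)
    (h1 : Q ^ (9 / 11 : ℝ) ≤ Y) (h2 : Y ≤ Q ^ (alp g)) :
    Y ^ (2 * g) + Q * Y ^ (6 * g - 2) ≤ 2 * Q ^ (27 / 11 * g) := by
  have hQ0 : 0 < Q := by linarith
  have hY0 : 0 < Y := by linarith
  have e1 : Y ^ (2 * g) ≤ Q ^ (27 / 11 * g) := by
    calc Y ^ (2 * g) ≤ (Q ^ (alp g)) ^ (2 * g) := Real.rpow_le_rpow hY0.le h2 (by linarith)
      _ = Q ^ (alp g * (2 * g)) := by rw [← Real.rpow_mul hQ0.le]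
      _ ≤ Q ^ (27 / 11 * g) := by
          apply Real.rpow_le_rpow_of_exponent_le hQ
          have := alp_le hg (by linarith)
          nlinarith
  have e2 : Q * Y ^ (6 * g - 2) ≤ Q ^ (27 / 11 * g) := by
    calc Q * Y ^ (6 * g - 2) ≤ Q * (Q ^ (9 / 11 : ℝ)) ^ (6 * g - 2) := by
          apply mul_le_mul_of_nonneg_left _ hQ0.le
          exact Real.rpow_le_rpow_of_nonpos (by positivity) h1 (by linarith)
      _ = Q ^ (1 + 9 / 11 * (6 * g - 2)) := by
          rw [← Real.rpow_mul hQ0.le, Real.rpow_add hQ0, Real.rpow_one]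
      _ ≤ Q ^ (27 / 11 * g) := by
          apply Real.rpow_le_rpow_of_exponent_le hQ
          linarith
  linarith

end Pool.Agent.Helper25.WL
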