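import Mathlib

/-!
# WL-Arith: the linear inequalities behind the large value estimate in the critical range
-/

set_option autoImplicit false

namespace Pool.Agent.Helper25.WL

/-- The seven terms of the large value theorem modulo `q`, in logarithms. -/
lemma arith7 {a k t y v g be w el la r u : ℝ} (ha : a = k + t) (ht : 0 ≤ t) (hk : 0 ≤ k)
    (hg0 : 0 ≤ g) (hg : g ≤ 2 / 9) (hy : 9 / 11 * a ≤ y) (hv : (1 - g) * y ≤ v)
    (hH : 2 * v ≤ y + k / 2 + la) (hu : v - el ≤ u)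
    (hbe : 0 ≤ be) (hw : 0 ≤ w) (hel : 0 ≤ el) (hla : 0 ≤ la)
    (h : r + 2 * u ≤ 2 * y + 2 * be + 2 * w ∨
      r + 6 * u ≤ k + 4 * y + 8 * be + 4 * w ∨
      3 * r + 12 * u ≤ 4 * k + 6 * y + 16 * be + 7 * w ∨
      ∃ e : ℝ, 5 * r + 12 * u ≤ 3 * k + 7 * y + e + 16 * be + 7 * w ∧
        (4 * u + e ≤ 4 * y + r + 6 * be + w ∨
         4 * u + 3 / 2 * e ≤ 3 * y + 3 * r + k / 2 + 6 * be + w ∨
         4 * u + e / 2 ≤ 3 * y + k / 2 + 6 * be + w ∨
         4 * u + e ≤ 2 * y + 2 * r + k + 6 * be + w)) :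
    r + 2 * u ≤ 2 * v + 27 / 11 * (g * a) - t + 20 * (be + w + el + la) := by
  have ha0 : 0 ≤ a := by linarith
  have P1 : 0 ≤ y - 9 / 11 * a := by linarith
  have P2 : 0 ≤ (2 / 9 - g) * (y - 9 / 11 * a) := mul_nonneg (by linarith) P1
  have P3 : 0 ≤ (2 / 9 - g) * a := mul_nonneg (by linarith) ha0
  have P4 : 0 ≤ g * a := mul_nonneg hg0 ha0
  rcases h with h | h | h | ⟨e, h, h' | h' | h' | h'⟩
  · nlinarith
  · nlinarith
  · nlinarith
  · nlinarith
  · nlinarith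
  · nlinarith
  · nlinarith

end Pool.Agent.Helper25.WL
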