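import Pool.Agent.Helper25.WL.Trans
import Pool.Agent.Helper25.WL.Arith
import Pool.Agent.Helper62.LV.Raw

/-!
# WL-Crit: cells in the critical range, from the large value theorem modulo `q`
-/

set_option autoImplicit false

namespace Pool.Agent.Helper25.WL

open Finset
open Pool.Agent.Helper25.HM

/-- one value of `k` -/
lemma crit_one {q : ℕ} [NeZero q] {T : ℕ} (hT : 1 ≤ T) {Y : ℕ} (hY : 1 ≤ Y) (h8 : 8 * Y ≤ q)
    (b : ℕ → ℂ) {B : ℝ} (hB1 : 1 ≤ B) (hb : ∀ n ∈ Icc 1 Y, ‖b n‖ ≤ B)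
    (hd : ∀ n : ℕ, 1 ≤ n → n ≤ q → ((n.divisors.card : ℕ) : ℝ) ≤ B)
    (W : Finset (DirichletCharacter ℂ q)) {U V l LA g : ℝ} (hU : 0 < U) (hV : 0 < V)
    (hVW : ∀ χ ∈ W, U ≤ ‖∑ n ∈ Icc 1 Y, b n * χ (n : ZMod q)‖)
    (hg0 : 0 ≤ g) (hg : g ≤ 2 / 9) (hy : ((q : ℝ) * T) ^ (9 / 11 : ℝ) ≤ Y) (hv : (Y : ℝ) ^ (1 - g) ≤ V)
    (hLA : 1 ≤ LA) (hH : V ^ 2 ≤ LA * (Y * Real.sqrt q)) (hl : 1 ≤ l) (hUV : V / (4 * l) ≤ U) :
    (W.card : ℝ) * U ^ 2 ≤ V ^ 2 * ((q : ℝ) * T) ^ (27 / 11 * g) / T * (4 * 10 ^ 8 * (B * l * LA)) ^ 20 := by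
  have hq1 : (1 : ℝ) ≤ q := by exact_mod_cast Nat.one_le_iff_ne_zero.2 (NeZero.ne q)
  have hT1 : (1 : ℝ) ≤ T := by exact_mod_cast hT
  have hY1 : (1 : ℝ) ≤ Y := by exact_mod_cast hY
  have hq0 : (0 : ℝ) < q := by linarith
  have hT0 : (0 : ℝ) < T := by linarith
  have hY0 : (0 : ℝ) < Y := by linarith
  have hB0 : 0 < B := by linarith
  have hl0 : 0 < l := by linarith
  have hLA0 : 0 < LA := by linarith
  have hQ0 : (0 : ℝ) < q * T := by positivity
  rcases W.eq_empty_or_nonempty with hW | hW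
  · rw [hW, card_empty, Nat.cast_zero, zero_mul]
    positivity
  · have hr0 : (0 : ℝ) < W.card := by exact_mod_cast card_pos.2 hW
    have h1 := Pool.Agent.Helper88.LV.lv_log hY h8 b hB1 (w := Real.log (10 ^ 8)) le_rfl hb hd W hW hU hVW
    have ha : Real.log ((q : ℝ) * T) = Real.log q + Real.log T := Real.log_mul hq0.ne' hT0.ne'
    have hy' : 9 / 11 * Real.log ((q : ℝ) * T) ≤ Real.log Y := by
      rw [← Real.log_rpow hQ0]
      exact Real.log_le_log (by positivity) hy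
    have hv' : (1 - g) * Real.log Y ≤ Real.log V := by
      rw [← Real.log_rpow hY0]
      exact Real.log_le_log (by positivity) hv
    have hH' : 2 * Real.log V ≤ Real.log Y + Real.log q / 2 + Real.log LA := by
      have e1 := Real.log_le_log (by positivity) hH
      rw [Real.log_pow, Real.log_mul hLA0.ne' (by positivity), Real.log_mul hY0.ne' (by positivity),
        Real.log_sqrt hq0.le] at e1
      push_cast at e1
      linarith
    have hu' : Real.log V - Real.log (4 * l) ≤ Real.log U := by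
      rw [← Real.log_div hV.ne' (by positivity)]
      exact Real.log_le_log (by positivity) hUV
    have hw0 : 0 ≤ Real.log ((10 : ℝ) ^ 8) := Real.log_nonneg (by norm_num)
    have h2 := arith7 (r := Real.log W.card) (u := Real.log U) ha (Real.log_nonneg hT1) (Real.log_nonneg hq1)
      hg0 hg hy' hv' hH' hu' (Real.log_nonneg hB1) hw0 (Real.log_nonneg (by linarith : (1 : ℝ) ≤ 4 * l))
      (Real.log_nonneg hLA) h1
    have h3 : Real.log ((W.card : ℝ) * U ^ 2) ≤
        Real.log (V ^ 2 * ((q : ℝ) * T) ^ (27 / 11 * g) / T * (4 * 10 ^ 8 * (B * l * LA)) ^ 20) := by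
      have e1 : Real.log ((W.card : ℝ) * U ^ 2) = Real.log W.card + 2 * Real.log U := by
        rw [Real.log_mul hr0.ne' (by positivity), Real.log_pow]
        push_cast
        ring
      have e2 : Real.log (V ^ 2 * ((q : ℝ) * T) ^ (27 / 11 * g) / T * (4 * 10 ^ 8 * (B * l * LA)) ^ 20) =
          2 * Real.log V + 27 / 11 * g * Real.log ((q : ℝ) * T) - Real.log T +
            20 * Real.log (4 * 10 ^ 8 * (B * l * LA)) := by
        rw [Real.log_mul (by positivity) (by positivity), Real.log_div (by positivity) hT0.ne',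
          Real.log_mul (by positivity) (by positivity), Real.log_pow, Real.log_pow, Real.log_rpow hQ0]
        push_cast
        ring
      have e3 : Real.log (4 * 10 ^ 8 * (B * l * LA)) =
          Real.log B + Real.log (10 ^ 8) + Real.log (4 * l) + Real.log LA := by
        rw [Real.log_mul (by norm_num) (by positivity), Real.log_mul (by norm_num) (by norm_num),
          Real.log_mul (by positivity) hLA0.ne', Real.log_mul hB0.ne' hl0.ne',
          Real.log_mul (by norm_num : (4 : ℝ) ≠ 0) hl0.ne']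
        ring
      rw [e1, e2, e3]
      linarith
    exact (Real.log_le_log_iff (by positivity) (by positivity)).1 h3

theorem crit {q : ℕ} [NeZero q] (s : DirichletCharacter ℂ q × ℤ → ℝ)
    (hs : ∀ p, (p.2 : ℝ) ≤ s p ∧ s p ≤ p.2 + 1) {T : ℕ} (hT : 1 ≤ T) {Y : ℕ} (hY : 1 ≤ Y) (h8 : 8 * Y ≤ q)
    (b : ℕ → ℂ) {B : ℝ} (hB1 : 1 ≤ B) (hb : ∀ n ∈ Icc 1 Y, ‖b n‖ ≤ B)
    (hd : ∀ n : ℕ, 1 ≤ n → n ≤ q → ((n.divisors.card : ℕ) : ℝ) ≤ B)
    (W : Finset (DirichletCharacter ℂ q × ℤ)) (hWT : ∀ p ∈ W, |p.2| ≤ T) {V l LA g : ℝ} (hV : 0 < V)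
    (hVW : ∀ p ∈ W, V ≤ ‖PR Y b p.1 (s p)‖)
    (hg0 : 0 ≤ g) (hg : g ≤ 2 / 9) (hy : ((q : ℝ) * T) ^ (9 / 11 : ℝ) ≤ Y) (hv : (Y : ℝ) ^ (1 - g) ≤ V)
    (hLA : 1 ≤ LA) (hH : V ^ 2 ≤ LA * (Y * Real.sqrt q)) (hl : 1 + Real.log Y ≤ l)
    {J : ℕ} (hJ : 4 * l * (Y * B) ≤ 2 ^ J) :
    (W.card : ℝ) ≤ 45 * l * J * (4 * 10 ^ 8 * (B * l * LA)) ^ 20 * ((q : ℝ) * T) ^ (27 / 11 * g) := by
  classical
  have hq1 : (1 : ℝ) ≤ q := by exact_mod_cast Nat.one_le_iff_ne_zero.2 (NeZero.ne q)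
  have hT1 : (1 : ℝ) ≤ T := by exact_mod_cast hT
  have hY1 : (1 : ℝ) ≤ Y := by exact_mod_cast hY
  have hlY : 0 ≤ Real.log Y := Real.log_nonneg hY1
  have hl1 : 1 ≤ l := by linarith
  have hT0 : (0 : ℝ) < T := by linarith
  have hV1 : 1 ≤ V := by
    refine le_trans ?_ hv
    exact Real.one_le_rpow hY1 (by linarith)
  obtain ⟨E, hE⟩ : ∃ E : ℝ, E = (4 * 10 ^ 8 * (B * l * LA)) ^ 20 := ⟨_, rfl⟩
  have hE0 : 0 ≤ E := by rw [hE]; positivity
  obtain ⟨Qr, hQr⟩ : ∃ Qr : ℝ, Qr = ((q : ℝ) * T) ^ (27 / 11 * g) := ⟨_, rfl⟩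
  have hQr0 : 0 ≤ Qr := by rw [hQr]; positivity
  have h1 := transfer s hs hY b hb W hV hVW hl (R := 3 * (V ^ 2 * Qr * E)) J (by
      have e1 : 0 < 4 * l := by linarith
      rw [← mul_div_assoc, le_div_iff₀ e1]
      have e2 : (2 : ℝ) ^ J * 1 ≤ 2 ^ J * V := mul_le_mul_of_nonneg_left hV1 (by positivity)
      calc (Y : ℝ) * B * (4 * l) = 4 * l * (Y * B) := by ring
        _ ≤ 2 ^ J := hJ
        _ ≤ 2 ^ J * V := by linarith) (by
      intro c hc U hU W' hW' hUW'
      have hU0 : 0 < U := lt_of_lt_of_le (by positivity) hU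
      -- the fibres over k
      have hcard : (W'.card : ℝ) = ∑ k ∈ Icc (-(T : ℤ)) T, ((W'.filter (fun p => p.2 = k)).card : ℝ) := by
        have e1 := card_eq_sum_card_fiberwise (f := fun p : DirichletCharacter ℂ q × ℤ => p.2) (s := W')
          (t := Icc (-(T : ℤ)) T) (by
            intro p hp
            have := hWT p (hW' hp)
            rw [abs_le] at this
            exact mem_coe.2 (mem_Icc.2 this))
        exact_mod_cast e1
      have hone : ∀ k ∈ Icc (-(T : ℤ)) T, ((W'.filter (fun p => p.2 = k)).card : ℝ) * U ^ 2 ≤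
          V ^ 2 * Qr / T * E := by
        intro k _
        have e2 : ((W'.filter (fun p => p.2 = k)).image Prod.fst).card = (W'.filter (fun p => p.2 = k)).card := by
          apply card_image_of_injOn
          intro x hx y hy hxy
          rw [mem_coe, mem_filter] at hx hy
          exact Prod.ext hxy (hx.2.trans hy.2.symm)
        rw [← e2, hQr, hE]
        apply crit_one hT hY h8 (fun n => c n * nt n k) hB1 (fun n hn => by
          rw [norm_mul, norm_nt, mul_one]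
          exact hc n hn) hd _ hU0 hV _ hg0 hg hy hv hLA hH hl1 hU
        intro χ hχ
        rw [mem_image] at hχ
        obtain ⟨p, hp, rfl⟩ := hχ
        rw [mem_filter] at hp
        have e3 := hUW' p hp.1
        have e4 : P Y c p = ∑ n ∈ Icc 1 Y, c n * nt n k * p.1 (n : ZMod q) := by
          unfold P
          refine sum_congr rfl fun n _ => ?_
          rw [hp.2]
          ring
        rw [← e4]
        exact e3
      rw [hcard, sum_mul]
      refine (sum_le_sum hone).trans ?_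
      rw [sum_const, nsmul_eq_mul, Int.card_Icc]
      have e5 : (((T : ℤ) + 1 - -(T : ℤ)).toNat : ℝ) = 2 * T + 1 := by
        have : ((T : ℤ) + 1 - -(T : ℤ)).toNat = 2 * T + 1 := by omega
        rw [this]
        push_cast
        ring
      rw [e5]
      have e6 : (2 * (T : ℝ) + 1) * (V ^ 2 * Qr / T * E) = (2 * T + 1) / T * (V ^ 2 * Qr * E) := by
        field_simp
      rw [e6]
      apply mul_le_mul_of_nonneg_right _ (by positivity)
      rw [div_le_iff₀ hT0]
      linarith)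
  have hV2 : 0 < V ^ 2 := by positivity
  have h2 : (W.card : ℝ) * V ^ 2 ≤ (45 * l * J * E * Qr) * V ^ 2 := by
    refine h1.trans (le_of_eq ?_)
    ring
  have h3 := le_of_mul_le_mul_right h2 hV2
  rw [hE, hQr] at h3
  exact h3

end Pool.Agent.Helper25.WL
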