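import Pool.Agent.Helper25.WL.TN
import Pool.Agent.Helper25.WL.Crit
import Pool.Agent.Helper25.WL.Choice
import Pool.Agent.Helper69.FF.DivS

/-!
# WL-Factor: large values of one factor of general shape
-/

set_option autoImplicit false

namespace Pool.Agent.Helper25.WL

open Finset
open Pool.Agent.Helper25.HM

lemma losses {δ : ℝ} (hδ : 0 < δ) {J0 : ℕ} (hJ0 : 1 ≤ J0) : ∃ K : ℝ, 1 ≤ K ∧ ∀ N : ℕ, 1 ≤ N →
    1 + J0 * Real.log (4 * N) ≤ K * (N : ℝ) ^ δ ∧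
      ∀ n : ℕ, n ≤ (4 * N) ^ J0 → (n.divisors.card : ℝ) ≤ K * (N : ℝ) ^ δ := by
  have hJ0r : (0 : ℝ) < J0 := by exact_mod_cast hJ0
  obtain ⟨Cd, hCd, hdiv⟩ := Pool.Agent.Helper69.FF.div_bound (ε := δ / J0) (by positivity)
  have h4 : (0 : ℝ) < 4 ^ δ := by positivity
  refine ⟨1 + J0 * (4 ^ δ / δ) + Cd * 4 ^ δ, ?_, fun N hN => ⟨?_, fun n hn => ?_⟩⟩
  · have : 0 ≤ (J0 : ℝ) * (4 ^ δ / δ) + Cd * 4 ^ δ := by positivity
    linarith
  · have hN1 : (1 : ℝ) ≤ N := by exact_mod_cast hN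
    have h1 : Real.log (4 * N) ≤ (4 * N) ^ δ / δ := Real.log_le_rpow_div (by positivity) hδ
    rw [Real.mul_rpow (by norm_num) (by positivity)] at h1
    have h2 : (1 : ℝ) ≤ (N : ℝ) ^ δ := Real.one_le_rpow hN1 hδ.le
    have h3 : (J0 : ℝ) * Real.log (4 * N) ≤ J0 * (4 ^ δ * (N : ℝ) ^ δ / δ) :=
      mul_le_mul_of_nonneg_left h1 (by positivity)
    have h5 : 0 ≤ Cd * 4 ^ δ * (N : ℝ) ^ δ := by positivity
    calc 1 + J0 * Real.log (4 * N) ≤ (N : ℝ) ^ δ + J0 * (4 ^ δ * (N : ℝ) ^ δ / δ) + Cd * 4 ^ δ * (N : ℝ) ^ δ := by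
          linarith
      _ = _ := by ring
  · have hN1 : (1 : ℝ) ≤ N := by exact_mod_cast hN
    rcases Nat.eq_zero_or_pos n with h0 | h0
    · rw [h0]
      simp only [Nat.divisors_zero, card_empty, Nat.cast_zero]
      positivity
    · have h1 := hdiv n (by omega)
      have h2 : (n : ℝ) ^ (δ / J0) ≤ (4 * N) ^ δ := by
        calc (n : ℝ) ^ (δ / J0) ≤ ((4 * (N : ℝ)) ^ J0) ^ (δ / J0) := by
              apply Real.rpow_le_rpow (by positivity) _ (by positivity)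
              exact_mod_cast hn
          _ = (4 * N) ^ δ := by
              rw [← Real.rpow_natCast, ← Real.rpow_mul (by positivity)]
              congr 1
              field_simp
      rw [Real.mul_rpow (by norm_num) (by positivity)] at h2
      calc (n.divisors.card : ℝ) ≤ Cd * (n : ℝ) ^ (δ / J0) := h1
        _ ≤ Cd * (4 ^ δ * (N : ℝ) ^ δ) := mul_le_mul_of_nonneg_left h2 hCd.le
        _ = (Cd * 4 ^ δ) * (N : ℝ) ^ δ := by ring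
        _ ≤ _ := by
          apply mul_le_mul_of_nonneg_right _ (by positivity)
          have : 0 ≤ (J0 : ℝ) * (4 ^ δ / δ) := by positivity
          linarith

/-- The trivial bound for the number of cells. -/
lemma card_triv {q : ℕ} [NeZero q] {T : ℕ} (hT : 1 ≤ T) (W : Finset (DirichletCharacter ℂ q × ℤ))
    (hWT : ∀ p ∈ W, |p.2| ≤ T) : (W.card : ℝ) ≤ 3 * ((q : ℝ) * T) := by
  classical
  have hsub : W ⊆ (univ : Finset (DirichletCharacter ℂ q)) ×ˢ Icc (-(T : ℤ)) T := by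
    intro p hp
    rw [mem_product, mem_Icc]
    have := hWT p hp
    rw [abs_le] at this
    exact ⟨mem_univ _, this⟩
  have h1 := card_le_card hsub
  rw [card_product, Int.card_Icc, card_univ] at h1
  have h2 : Fintype.card (DirichletCharacter ℂ q) ≤ q := by
    rw [← Nat.card_eq_fintype_card, DirichletCharacter.card_eq_totient_of_hasEnoughRootsOfUnity]
    exact Nat.totient_le q
  have h3 : (((T : ℤ) + 1 - -(T : ℤ)).toNat) = 2 * T + 1 := by omega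
  rw [h3] at h1
  have h4 : W.card ≤ q * (3 * T) := h1.trans (Nat.mul_le_mul h2 (by omega))
  have h5 : (W.card : ℝ) ≤ ((q * (3 * T) : ℕ) : ℝ) := by exact_mod_cast h4
  push_cast at h5
  linarith

/-- The mean value case. -/
lemma case1 {q : ℕ} [NeZero q] (s : DirichletCharacter ℂ q × ℤ → ℝ)
    (hs : ∀ p, (p.2 : ℝ) ≤ s p ∧ s p ≤ p.2 + 1) {T : ℕ} (hT : 1 ≤ T) {Y : ℕ} (hY : 1 ≤ Y)
    (b : ℕ → ℂ) {D Z : ℝ} (hD1 : 1 ≤ D) (hZ1 : 1 ≤ Z) (hb : ∀ n ∈ Icc 1 Y, ‖b n‖ ≤ Z)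
    (hlY : 1 + Real.log Y ≤ D)
    (W : Finset (DirichletCharacter ℂ q × ℤ)) (hWT : ∀ p ∈ W, |p.2| ≤ T) {g : ℝ}
    (hg : 11 / 54 ≤ g) (hg2 : g < 11 / 27)
    (hVW : ∀ p ∈ W, (Y : ℝ) ^ (1 - g) ≤ ‖PR Y b p.1 (s p)‖)
    (h1 : ((q : ℝ) * T) ^ (alp g) ≤ Y) (h2 : (Y : ℝ) ≤ 4 * ((q : ℝ) * T) ^ (27 / 22 : ℝ)) :
    (W.card : ℝ) ≤ 2000 * (D ^ 3 * Z ^ 2) * ((q : ℝ) * T) ^ (27 / 11 * g) := by
  have hY1 : (1 : ℝ) ≤ Y := by exact_mod_cast hY
  have hY0 : (0 : ℝ) < Y := by linarith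
  have hT1 : (1 : ℝ) ≤ T := by exact_mod_cast hT
  have hq1 : (1 : ℝ) ≤ q := by exact_mod_cast Nat.one_le_iff_ne_zero.2 (NeZero.ne q)
  have hQ1 : 1 ≤ (q : ℝ) * T := by nlinarith
  have h3 := T1C s hs T hT hY b hb hlY W hWT (V := (Y : ℝ) ^ (1 - g)) (by positivity) hVW
  have h4 := terms1 hQ1 hY1 hg hg2 h1 h2
  have hV : ((Y : ℝ) ^ (1 - g)) ^ 2 = (Y : ℝ) ^ (2 - 2 * g) := by
    rw [← Real.rpow_natCast, ← Real.rpow_mul hY0.le]
    congr 1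
    push_cast
    ring
  rw [hV] at h3
  have h5 : (W.card : ℝ) ≤ 400 * D ^ 3 * (Z ^ 2 * ((q * T + Y) * Y)) / (Y : ℝ) ^ (2 - 2 * g) := by
    rw [le_div_iff₀ (by positivity)]
    exact h3
  have h6 : 400 * D ^ 3 * (Z ^ 2 * (((q : ℝ) * T + Y) * Y)) / (Y : ℝ) ^ (2 - 2 * g) =
      400 * (D ^ 3 * Z ^ 2) * ((q * T) * (Y : ℝ) ^ (2 * g - 1) + (Y : ℝ) ^ (2 * g)) := by
    have e1 : (Y : ℝ) ^ (2 * g - 1) = Y / (Y : ℝ) ^ (2 - 2 * g) := by
      nth_rewrite 2 [← Real.rpow_one (Y : ℝ)]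
      rw [← Real.rpow_sub hY0]
      congr 1
      ring
    have e2 : (Y : ℝ) ^ (2 * g) = Y ^ 2 / (Y : ℝ) ^ (2 - 2 * g) := by
      rw [← Real.rpow_natCast (Y : ℝ) 2, ← Real.rpow_sub hY0]
      congr 1
      push_cast
      ring
    rw [e1, e2]
    field_simp
  rw [h6] at h5
  calc (W.card : ℝ) ≤ 400 * (D ^ 3 * Z ^ 2) * ((q * T) * (Y : ℝ) ^ (2 * g - 1) + (Y : ℝ) ^ (2 * g)) := h5
    _ ≤ 400 * (D ^ 3 * Z ^ 2) * (5 * ((q : ℝ) * T) ^ (27 / 11 * g)) :=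
        mul_le_mul_of_nonneg_left h4 (by positivity)
    _ = _ := by ring

/-- The two cases in the critical range. -/
lemma case2 {q : ℕ} [NeZero q] (s : DirichletCharacter ℂ q × ℤ → ℝ)
    (hs : ∀ p, (p.2 : ℝ) ≤ s p ∧ s p ≤ p.2 + 1) {T : ℕ} (hT : 1 ≤ T) {Y : ℕ} (hY : 1 ≤ Y)
    (b : ℕ → ℂ) {D Z : ℝ} (hD1 : 1 ≤ D) (hDZ : D ≤ Z) (hb : ∀ n ∈ Icc 1 Y, ‖b n‖ ≤ Z)
    (hlY : 1 + Real.log Y ≤ D) (hlq : 1 + Real.log q ≤ D) (hlT : 1 + Real.log T ≤ D)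
    (hd : ∀ n : ℕ, 1 ≤ n → n ≤ q → (n.divisors.card : ℝ) ≤ D)
    (W : Finset (DirichletCharacter ℂ q × ℤ)) (hWT : ∀ p ∈ W, |p.2| ≤ T) {g : ℝ}
    (hg : 11 / 54 ≤ g) (hg2 : g < 2 / 9) {E : ℝ} (hE1 : 1 ≤ E)
    (hVW : ∀ p ∈ W, (Y : ℝ) ^ (1 - g) * E ≤ ‖PR Y b p.1 (s p)‖)
    (h1 : ((q : ℝ) * T) ^ (9 / 11 : ℝ) ≤ Y) (h2 : (Y : ℝ) ≤ ((q : ℝ) * T) ^ (alp g))
    (hE : 8 * (3000 * D ^ 4 * Z ^ 2) ^ 2 ≤ E ^ 4) (J0 : ℕ) (hZJ : Z ≤ D ^ J0) :
    (W.card : ℝ) ≤ (45 * (9 + 2 * J0) * (12 * 10 ^ 11) ^ 20) * (D ^ 102 * Z ^ 60) *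
      ((q : ℝ) * T) ^ (27 / 11 * g) := by
  have hY1 : (1 : ℝ) ≤ Y := by exact_mod_cast hY
  have hY0 : (0 : ℝ) < Y := by linarith
  have hT1 : (1 : ℝ) ≤ T := by exact_mod_cast hT
  have hq1 : (1 : ℝ) ≤ q := by exact_mod_cast Nat.one_le_iff_ne_zero.2 (NeZero.ne q)
  have hq0 : (0 : ℝ) < q := by linarith
  have hQ1 : 1 ≤ (q : ℝ) * T := by nlinarith
  have hZ1 : 1 ≤ Z := by linarith
  have hD0 : 0 < D := by linarith
  have hZ0 : 0 < Z := by linarith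
  have hE0 : 0 < E := by linarith
  obtain ⟨V, hV⟩ : ∃ V : ℝ, V = (Y : ℝ) ^ (1 - g) * E := ⟨_, rfl⟩
  have hYg : 0 < (Y : ℝ) ^ (1 - g) := by positivity
  have hV0 : 0 < V := by rw [hV]; positivity
  have hVY : (Y : ℝ) ^ (1 - g) ≤ V := by rw [hV]; nlinarith
  rw [← hV] at hVW
  have hQr : 0 < ((q : ℝ) * T) ^ (27 / 11 * g) := by positivity
  rcases le_or_gt (3000 * D ^ 4 * Z ^ 2 * Y * Real.sqrt q) (V ^ 2) with hc | hc
  · -- Huxley
    have h3 := T2C s hs T hT hY b hZ1 hb hlY hlq hlT (hd q (Nat.one_le_iff_ne_zero.2 (NeZero.ne q)) le_rfl)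
      W hWT hV0 hVW hc
    have h4 := terms2 hQ1 hY1 hg hg2 h1 h2
    have e0 : (Y : ℝ) ^ (2 - 2 * g) = ((Y : ℝ) ^ (1 - g)) ^ 2 := by
      rw [← Real.rpow_natCast, ← Real.rpow_mul hY0.le]
      congr 1
      push_cast
      ring
    have e1 : Z ^ 2 * (Y : ℝ) ^ 2 / V ^ 2 ≤ Z ^ 6 * (Y : ℝ) ^ (2 * g) := by
      rw [div_le_iff₀ (by positivity)]
      have f1 : (Y : ℝ) ^ (2 * g) * ((Y : ℝ) ^ (1 - g)) ^ 2 = Y ^ 2 := by
        rw [← e0, ← Real.rpow_add hY0, ← Real.rpow_natCast]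
        congr 1
        push_cast
        ring
      calc Z ^ 2 * (Y : ℝ) ^ 2 ≤ Z ^ 6 * (Y : ℝ) ^ 2 :=
            mul_le_mul_of_nonneg_right (pow_le_pow_right₀ hZ1 (by norm_num)) (by positivity)
        _ = Z ^ 6 * (Y : ℝ) ^ (2 * g) * ((Y : ℝ) ^ (1 - g)) ^ 2 := by rw [mul_assoc, f1]
        _ ≤ Z ^ 6 * (Y : ℝ) ^ (2 * g) * V ^ 2 :=
            mul_le_mul_of_nonneg_left (pow_le_pow_left₀ hYg.le hVY 2) (by positivity)
    have e2 : q * T * (Z ^ 6 * (Y : ℝ) ^ 4) / V ^ 6 ≤ Z ^ 6 * ((q : ℝ) * T * (Y : ℝ) ^ (6 * g - 2)) := by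
      rw [div_le_iff₀ (by positivity)]
      have f1 : (Y : ℝ) ^ (6 * g - 2) * ((Y : ℝ) ^ (1 - g)) ^ 6 = Y ^ 4 := by
        rw [← Real.rpow_natCast, ← Real.rpow_mul hY0.le, ← Real.rpow_add hY0, ← Real.rpow_natCast]
        congr 1
        push_cast
        ring
      calc q * T * (Z ^ 6 * (Y : ℝ) ^ 4) = Z ^ 6 * (q * T * ((Y : ℝ) ^ (6 * g - 2) * ((Y : ℝ) ^ (1 - g)) ^ 6)) := by
            rw [f1]; ring
        _ = Z ^ 6 * ((q : ℝ) * T * (Y : ℝ) ^ (6 * g - 2)) * ((Y : ℝ) ^ (1 - g)) ^ 6 := by ring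
        _ ≤ Z ^ 6 * ((q : ℝ) * T * (Y : ℝ) ^ (6 * g - 2)) * V ^ 6 :=
            mul_le_mul_of_nonneg_left (pow_le_pow_left₀ hYg.le hVY 6) (by positivity)
    have h5 : (W.card : ℝ) ≤ 2 * 10 ^ 12 * (D ^ 13 * Z ^ 6) * ((q : ℝ) * T) ^ (27 / 11 * g) := by
      calc (W.card : ℝ) ≤ 10 ^ 12 * D ^ 13 * (Z ^ 2 * (Y : ℝ) ^ 2 / V ^ 2 + q * T * (Z ^ 6 * (Y : ℝ) ^ 4) / V ^ 6) := h3
        _ ≤ 10 ^ 12 * D ^ 13 * (Z ^ 6 * (Y : ℝ) ^ (2 * g) + Z ^ 6 * ((q : ℝ) * T * (Y : ℝ) ^ (6 * g - 2))) :=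
            mul_le_mul_of_nonneg_left (add_le_add e1 e2) (by positivity)
        _ = 10 ^ 12 * (D ^ 13 * Z ^ 6) * ((Y : ℝ) ^ (2 * g) + (q : ℝ) * T * (Y : ℝ) ^ (6 * g - 2)) := by ring
        _ ≤ 10 ^ 12 * (D ^ 13 * Z ^ 6) * (2 * ((q : ℝ) * T) ^ (27 / 11 * g)) :=
            mul_le_mul_of_nonneg_left h4 (by positivity)
        _ = _ := by ring
    refine h5.trans ?_
    apply mul_le_mul_of_nonneg_right _ hQr.le
    have f1 : D ^ 13 * Z ^ 6 ≤ D ^ 102 * Z ^ 60 :=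
      mul_le_mul (pow_le_pow_right₀ hD1 (by norm_num)) (pow_le_pow_right₀ hZ1 (by norm_num)) (by positivity)
        (by positivity)
    have f2 : (2 : ℝ) * 10 ^ 12 ≤ 45 * (9 + 2 * J0) * (12 * 10 ^ 11) ^ 20 := by
      have : (0 : ℝ) ≤ J0 := Nat.cast_nonneg _
      nlinarith
    exact mul_le_mul f2 f1 (by positivity) (by positivity)
  · -- the large value theorem modulo q
    have hsq : 0 < Real.sqrt q := Real.sqrt_pos.2 hq0
    have h8 : 8 * Y ≤ q := by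
      -- Y^(1-2g) E^2 < LA sqrt q
      have e1 : (Y : ℝ) ^ (1 - 2 * g) * E ^ 2 ≤ 3000 * D ^ 4 * Z ^ 2 * Real.sqrt q := by
        have f1 : V ^ 2 = (Y : ℝ) * ((Y : ℝ) ^ (1 - 2 * g) * E ^ 2) := by
          rw [hV, mul_pow]
          have : ((Y : ℝ) ^ (1 - g)) ^ 2 = Y * (Y : ℝ) ^ (1 - 2 * g) := by
            nth_rewrite 2 [← Real.rpow_one (Y : ℝ)]
            rw [← Real.rpow_add hY0, ← Real.rpow_natCast, ← Real.rpow_mul hY0.le]
            congr 1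
            push_cast
            ring
          rw [this]
          ring
        rw [f1] at hc
        have f2 : (Y : ℝ) * ((Y : ℝ) ^ (1 - 2 * g) * E ^ 2) ≤ Y * (3000 * D ^ 4 * Z ^ 2 * Real.sqrt q) := by
          linarith
        exact le_of_mul_le_mul_left f2 hY0
      have e2 : (Y : ℝ) ^ (1 / 2 : ℝ) ≤ (Y : ℝ) ^ (1 - 2 * g) :=
        Real.rpow_le_rpow_of_exponent_le hY1 (by linarith)
      have e3 : (Y : ℝ) ^ (1 / 2 : ℝ) * E ^ 2 ≤ 3000 * D ^ 4 * Z ^ 2 * Real.sqrt q :=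
        (mul_le_mul_of_nonneg_right e2 (by positivity)).trans e1
      have e4 := pow_le_pow_left₀ (by positivity) e3 2
      have e5 : ((Y : ℝ) ^ (1 / 2 : ℝ)) ^ 2 = Y := by
        rw [← Real.sqrt_eq_rpow, Real.sq_sqrt hY0.le]
      rw [mul_pow, mul_pow _ (Real.sqrt q) 2, e5, Real.sq_sqrt hq0.le] at e4
      have e6 : (Y : ℝ) * (8 * (3000 * D ^ 4 * Z ^ 2) ^ 2) ≤ (3000 * D ^ 4 * Z ^ 2) ^ 2 * q := by
        calc (Y : ℝ) * (8 * (3000 * D ^ 4 * Z ^ 2) ^ 2) ≤ Y * E ^ 4 := mul_le_mul_of_nonneg_left hE hY0.le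
          _ = Y * (E ^ 2) ^ 2 := by ring
          _ ≤ _ := e4
      have e7 : 8 * (Y : ℝ) ≤ q := by
        have : 0 < (3000 * D ^ 4 * Z ^ 2) ^ 2 := by positivity
        have e8 : (3000 * D ^ 4 * Z ^ 2) ^ 2 * (8 * (Y : ℝ)) ≤ (3000 * D ^ 4 * Z ^ 2) ^ 2 * q := by
          linarith
        exact le_of_mul_le_mul_left e8 this
      exact_mod_cast e7
    -- the number of levels
    have hx1 : 1 ≤ 4 * D * ((Y : ℝ) * Z) := by
      have : 1 ≤ (Y : ℝ) * Z := by nlinarith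
      nlinarith
    obtain ⟨n, hn1, hn2⟩ := exists_nat_pow_near hx1 (by norm_num : (1 : ℝ) < 2)
    have hJ : ((n + 1 : ℕ) : ℝ) ≤ (9 + 2 * J0) * D := by
      have f1 : (n : ℝ) * Real.log 2 ≤ Real.log (4 * D * ((Y : ℝ) * Z)) := by
        rw [← Real.log_pow]
        exact Real.log_le_log (by positivity) hn1
      have f2 : Real.log (4 * D * ((Y : ℝ) * Z)) = Real.log 4 + Real.log D + (Real.log Y + Real.log Z) := by
        rw [Real.log_mul (by positivity) (by positivity), Real.log_mul (by norm_num) hD0.ne',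
          Real.log_mul hY0.ne' hZ0.ne']
      have f3 : Real.log Z ≤ J0 * Real.log D := by
        rw [← Real.log_pow]
        exact Real.log_le_log hZ0 hZJ
      have f4 : Real.log D ≤ D - 1 := Real.log_le_sub_one_of_pos hD0
      have f5 : Real.log 4 ≤ 2 := by
        have : Real.log 4 = 2 * Real.log 2 := by
          rw [show (4 : ℝ) = 2 ^ 2 by norm_num, Real.log_pow]
          push_cast
          ring
        have := Real.log_two_lt_d9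
        linarith
      have f6 := Real.log_two_gt_d9
      have f7 : (0 : ℝ) ≤ J0 := Nat.cast_nonneg _
      have f8 : (J0 : ℝ) * Real.log D ≤ J0 * (D - 1) := mul_le_mul_of_nonneg_left f4 f7
      have f9 : (n : ℝ) ≤ 2 * (n * Real.log 2) := by
        have h0 : (0 : ℝ) ≤ n := Nat.cast_nonneg _
        have h1 : (n : ℝ) * 1 ≤ n * (2 * Real.log 2) := mul_le_mul_of_nonneg_left (by linarith) h0
        linarith
      have f10 : (J0 : ℝ) * (D - 1) ≤ J0 * D := mul_le_mul_of_nonneg_left (by linarith) f7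
      have f11 : (9 + 2 * (J0 : ℝ)) * D = 9 * D + 2 * (J0 * D) := by ring
      rw [f11]
      push_cast
      linarith
    have h3 := crit s hs hT hY h8 b hZ1 hb (fun n hn1 hn2 => (hd n hn1 hn2).trans hDZ) W hWT hV0 hVW
      (by linarith) hg2.le h1 hVY (LA := 3000 * D ^ 4 * Z ^ 2) (by
        have f1 : 1 ≤ D ^ 4 := one_le_pow₀ hD1
        have f2 : 1 ≤ Z ^ 2 := one_le_pow₀ hZ1
        have f3 : 1 ≤ D ^ 4 * Z ^ 2 := by nlinarith
        nlinarith) (by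
        have : 3000 * D ^ 4 * Z ^ 2 * Y * Real.sqrt q = 3000 * D ^ 4 * Z ^ 2 * (Y * Real.sqrt q) := by ring
        rw [← this]
        exact hc.le) hlY (J := n + 1) hn2.le
    refine h3.trans ?_
    apply mul_le_mul_of_nonneg_right _ hQr.le
    calc 45 * D * ((n + 1 : ℕ) : ℝ) * (4 * 10 ^ 8 * (Z * D * (3000 * D ^ 4 * Z ^ 2))) ^ 20
        ≤ 45 * D * ((9 + 2 * J0) * D) * (4 * 10 ^ 8 * (Z * D * (3000 * D ^ 4 * Z ^ 2))) ^ 20 := by
          apply mul_le_mul_of_nonneg_right _ (by positivity)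
          exact mul_le_mul_of_nonneg_left hJ (by positivity)
      _ = (45 * (9 + 2 * J0) * (12 * 10 ^ 11) ^ 20) * (D ^ 102 * Z ^ 60) := by
          have : 4 * 10 ^ 8 * (Z * D * (3000 * D ^ 4 * Z ^ 2)) = (12 * 10 ^ 11) * (D ^ 5 * Z ^ 3) := by ring
          rw [this]
          generalize (12 * 10 ^ 11 : ℝ) = c0
          ring

/-- Large values of one factor of length at most about `(q T)^(1/2)`, with arbitrary coefficients. -/
theorem factor_gen {ε : ℝ} (hε : 0 < ε) : ∃ C : ℝ, 0 < C ∧ ∀ (N q : ℕ) [NeZero q] (T : ℕ), 1 ≤ N → 1 ≤ T →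
    q * T ≤ N → ∀ s : DirichletCharacter ℂ q × ℤ → ℝ, (∀ p, (p.2 : ℝ) ≤ s p ∧ s p ≤ p.2 + 1) →
    ∀ M : ℕ, 1 ≤ M → M ^ 2 ≤ 4 * (q * T) → ∀ c : ℕ → ℂ, (∀ n, ‖c n‖ ≤ 1) →
    ∀ W : Finset (DirichletCharacter ℂ q × ℤ), (∀ p ∈ W, |p.2| ≤ T) →
    ∀ g : ℝ, 11 / 54 ≤ g → g ≤ 1 / 2 →
    (∀ p ∈ W, (M : ℝ) ^ (1 - g) * (N : ℝ) ^ ε ≤ ‖PR M c p.1 (s p)‖) →
    (W.card : ℝ) ≤ C * (N : ℝ) ^ ε * ((q : ℝ) * T) ^ (27 / 11 * g) := by
  obtain ⟨J0, hJ0⟩ : ∃ J0 : ℕ, J0 = ⌈1 / (2 * ε)⌉₊ + 1 := ⟨_, rfl⟩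
  have hJ01 : 1 ≤ J0 := by omega
  have hJ02 : 1 ≤ 2 * ε * J0 := by
    have h1 : 1 / (2 * ε) ≤ (⌈1 / (2 * ε)⌉₊ : ℝ) := Nat.le_ceil _
    have h2 : (J0 : ℝ) = (⌈1 / (2 * ε)⌉₊ : ℝ) + 1 := by rw [hJ0]; push_cast; ring
    rw [div_le_iff₀ (by positivity)] at h1
    rw [h2]
    nlinarith
  obtain ⟨m, hm⟩ : ∃ m : ℕ, m = 102 + 60 * J0 := ⟨_, rfl⟩
  have hm0 : (0 : ℝ) < m := by
    have : 0 < m := by omega
    exact_mod_cast this
  obtain ⟨K, hK1, hK⟩ := losses (δ := ε / m) (by positivity) hJ01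
  have hK0 : 0 < K := by linarith
  obtain ⟨A, hA⟩ : ∃ A : ℝ, A = 8 * (3000 * K ^ m) ^ 2 := ⟨_, rfl⟩
  have hA0 : 0 < A := by rw [hA]; positivity
  obtain ⟨C1, hC1⟩ : ∃ C1 : ℝ, C1 = (45 * (9 + 2 * J0) * (12 * 10 ^ 11) ^ 20 + 2000) * K ^ m := ⟨_, rfl⟩
  have hC10 : 0 < C1 := by rw [hC1]; positivity
  refine ⟨3 + 3 * A ^ (1 / (2 * ε)) + C1, by positivity, ?_⟩
  intro N q _ T hN hT hqT s hs M hM hM2 c hc W hWT g hg hg2 hVW
  have hN1 : (1 : ℝ) ≤ N := by exact_mod_cast hN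
  have hN0 : (0 : ℝ) < N := by linarith
  have hT1 : (1 : ℝ) ≤ T := by exact_mod_cast hT
  have hM1 : (1 : ℝ) ≤ M := by exact_mod_cast hM
  have hM0 : (0 : ℝ) < M := by linarith
  have hq1 : (1 : ℝ) ≤ q := by exact_mod_cast Nat.one_le_iff_ne_zero.2 (NeZero.ne q)
  have hQ1 : 1 ≤ (q : ℝ) * T := by nlinarith
  have hQN : (q : ℝ) * T ≤ N := by exact_mod_cast hqT
  have hM2' : (M : ℝ) ^ 2 ≤ 4 * ((q : ℝ) * T) := by exact_mod_cast hM2
  have hNe : 1 ≤ (N : ℝ) ^ ε := Real.one_le_rpow hN1 hε.le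
  have hQr : 1 ≤ ((q : ℝ) * T) ^ (27 / 11 * g) := Real.one_le_rpow hQ1 (by linarith)
  have hAe : 0 < A ^ (1 / (2 * ε)) := by positivity
  -- it is enough to bound by one of the three constants
  have key : ∀ x : ℝ, 0 ≤ x → x ≤ 3 + 3 * A ^ (1 / (2 * ε)) + C1 → (W.card : ℝ) ≤ x * (N : ℝ) ^ ε *
      ((q : ℝ) * T) ^ (27 / 11 * g) → (W.card : ℝ) ≤ (3 + 3 * A ^ (1 / (2 * ε)) + C1) * (N : ℝ) ^ ε *
      ((q : ℝ) * T) ^ (27 / 11 * g) := by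
    intro x _ hx h
    refine h.trans ?_
    gcongr
  rcases W.eq_empty_or_nonempty with hW | ⟨p0, hp0⟩
  · rw [hW, card_empty, Nat.cast_zero]
    positivity
  rcases le_or_gt (11 / 27) g with hg3 | hg3
  · refine key 3 (by norm_num) (by linarith) ?_
    have h1 := card_triv hT W hWT
    have h2 : (q : ℝ) * T ≤ ((q : ℝ) * T) ^ (27 / 11 * g) := by
      nth_rewrite 1 [← Real.rpow_one ((q : ℝ) * T)]
      exact Real.rpow_le_rpow_of_exponent_le hQ1 (by linarith)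
    calc (W.card : ℝ) ≤ 3 * ((q : ℝ) * T) := h1
      _ ≤ 3 * 1 * ((q : ℝ) * T) ^ (27 / 11 * g) := by linarith
      _ ≤ 3 * (N : ℝ) ^ ε * ((q : ℝ) * T) ^ (27 / 11 * g) := by gcongr
  rcases le_or_gt A ((N : ℝ) ^ (2 * ε)) with hAN | hAN
  swap
  · refine key (3 * A ^ (1 / (2 * ε))) (by positivity) (by linarith) ?_
    have h1 := card_triv hT W hWT
    have h2 : (N : ℝ) ≤ A ^ (1 / (2 * ε)) := by
      have h3 : (N : ℝ) = ((N : ℝ) ^ (2 * ε)) ^ (1 / (2 * ε)) := by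
        rw [← Real.rpow_mul hN0.le, mul_one_div_cancel (by positivity), Real.rpow_one]
      rw [h3]
      exact Real.rpow_le_rpow (by positivity) hAN.le (by positivity)
    have h4 : 1 ≤ (N : ℝ) ^ ε * ((q : ℝ) * T) ^ (27 / 11 * g) := by nlinarith
    calc (W.card : ℝ) ≤ 3 * ((q : ℝ) * T) := h1
      _ ≤ 3 * A ^ (1 / (2 * ε)) * 1 := by linarith
      _ ≤ 3 * A ^ (1 / (2 * ε)) * ((N : ℝ) ^ ε * ((q : ℝ) * T) ^ (27 / 11 * g)) := by gcongr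
      _ = _ := by ring
  -- the length is not too small
  have hMN : (N : ℝ) ^ (2 * ε) ≤ M := by
    have h1 := hVW p0 hp0
    have h2 := PR_triv M (B := 1) (fun n _ => hc n) p0.1 (s p0)
    have h3 : (M : ℝ) ^ (1 - g) * (N : ℝ) ^ ε ≤ (M : ℝ) ^ (1 - g) * (M : ℝ) ^ g := by
      rw [← Real.rpow_add hM0]
      have : 1 - g + g = 1 := by ring
      rw [this, Real.rpow_one]
      linarith
    have h4 : (N : ℝ) ^ ε ≤ (M : ℝ) ^ g := le_of_mul_le_mul_left h3 (by positivity)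
    have h5 : (N : ℝ) ^ ε ≤ (M : ℝ) ^ (1 / 2 : ℝ) := h4.trans (Real.rpow_le_rpow_of_exponent_le hM1 hg2)
    calc (N : ℝ) ^ (2 * ε) = ((N : ℝ) ^ ε) ^ 2 := by
          rw [← Real.rpow_natCast, ← Real.rpow_mul hN0.le]
          congr 1
          push_cast
          ring
      _ ≤ ((M : ℝ) ^ (1 / 2 : ℝ)) ^ 2 := pow_le_pow_left₀ (by positivity) h5 2
      _ = M := by rw [← Real.sqrt_eq_rpow, Real.sq_sqrt hM0.le]
  have hal := alp_le hg hg3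
  have hal0 := alp_pos hg3
  have hJM : ((q : ℝ) * T) ^ (alp g) ≤ (M : ℝ) ^ J0 := by
    calc ((q : ℝ) * T) ^ (alp g) ≤ ((q : ℝ) * T) ^ (1 : ℝ) :=
          Real.rpow_le_rpow_of_exponent_le hQ1 (by linarith)
      _ = (q : ℝ) * T := Real.rpow_one _
      _ ≤ N := hQN
      _ = (N : ℝ) ^ (1 : ℝ) := (Real.rpow_one _).symm
      _ ≤ (N : ℝ) ^ (2 * ε * J0) := Real.rpow_le_rpow_of_exponent_le hN1 hJ02
      _ = ((N : ℝ) ^ (2 * ε)) ^ J0 := by rw [Real.rpow_mul hN0.le, Real.rpow_natCast]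
      _ ≤ (M : ℝ) ^ J0 := pow_le_pow_left₀ (by positivity) hMN J0
  obtain ⟨j, hj1, hjJ, hja, hjb⟩ := choice hM1 hQ1 hM2' hal hal0 hJ01 hJM
  -- the losses
  obtain ⟨D, hD⟩ : ∃ D : ℝ, D = K * (N : ℝ) ^ (ε / m) := ⟨_, rfl⟩
  obtain ⟨hlog, hdiv⟩ := hK N hN
  rw [← hD] at hlog hdiv
  have hD1 : 1 ≤ D := by
    rw [hD]
    have : 1 ≤ (N : ℝ) ^ (ε / m) := Real.one_le_rpow hN1 (by positivity)
    nlinarith
  have hDm : D ^ m = K ^ m * (N : ℝ) ^ ε := by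
    rw [hD, mul_pow, ← Real.rpow_natCast ((N : ℝ) ^ (ε / m)), ← Real.rpow_mul hN0.le]
    congr 2
    field_simp
  have hM4N : (M : ℝ) ≤ 4 * N := by nlinarith
  have h4N0 : 0 ≤ Real.log (4 * N) := Real.log_nonneg (by linarith)
  have hJ0r : (1 : ℝ) ≤ J0 := by exact_mod_cast hJ01
  have hlog1 : ∀ x : ℝ, 0 < x → x ≤ 4 * N → 1 + Real.log x ≤ D := by
    intro x hx hx4
    have h1 : Real.log x ≤ Real.log (4 * N) := Real.log_le_log hx hx4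
    nlinarith
  have hlogpow : ∀ i : ℕ, i ≤ J0 → 1 + Real.log ((M ^ i : ℕ) : ℝ) ≤ D := by
    intro i hi
    push_cast
    rw [Real.log_pow]
    have h1 : Real.log M ≤ Real.log (4 * N) := Real.log_le_log hM0 hM4N
    have h2 : (i : ℝ) * Real.log M ≤ J0 * Real.log (4 * N) := by
      apply mul_le_mul _ h1 (Real.log_nonneg hM1) (by positivity)
      exact_mod_cast hi
    linarith
  -- powers
  have hpow : ∀ i : ℕ, 1 ≤ i → ∀ p ∈ W, ((M ^ i : ℕ) : ℝ) ^ (1 - g) * (N : ℝ) ^ (i * ε) ≤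
      ‖PR (M ^ i) (pc M c i) p.1 (s p)‖ := by
    intro i hi p hp
    rw [← PR_pow, norm_pow]
    have h1 := hVW p hp
    have h2 := pow_le_pow_left₀ (by positivity) h1 i
    refine le_trans (le_of_eq ?_) h2
    rw [mul_pow]
    push_cast
    congr 1
    · rw [← Real.rpow_natCast, ← Real.rpow_natCast, ← Real.rpow_mul hM0.le, ← Real.rpow_mul hM0.le]
      congr 1
      ring
    · rw [← Real.rpow_natCast, ← Real.rpow_mul hN0.le]
      congr 1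
      ring
  have hpc : ∀ i : ℕ, i ≤ J0 → ∀ n ∈ Icc 1 (M ^ i), ‖pc M c i n‖ ≤ D ^ J0 := by
    intro i hi n hn
    have hX : M ^ i ≤ (4 * N) ^ J0 := by
      have e1 : M ≤ 4 * N := by exact_mod_cast hM4N
      exact (Nat.pow_le_pow_left e1 i).trans (Nat.pow_le_pow_right (by omega) hi)
    exact (pc_le hc hD1 hdiv i hX n hn).trans (pow_le_pow_right₀ hD1 hi)
  have hDJ1 : 1 ≤ D ^ J0 := one_le_pow₀ hD1
  have hfin : D ^ 102 * (D ^ J0) ^ 60 ≤ K ^ m * (N : ℝ) ^ ε := by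
    rw [← hDm, ← pow_mul, ← pow_add, hm]
    exact pow_le_pow_right₀ hD1 (by omega)
  rcases hjb with hjb | ⟨hJ3, hj9, hj2, hj3⟩
  · -- the mean value theorem
    have hY1 : 1 ≤ M ^ j := Nat.one_le_pow _ _ hM
    have h1 := case1 s hs hT hY1 (pc M c j) hD1 hDJ1 (hpc j hjJ) (hlogpow j hjJ) W hWT hg hg3 (by
      intro p hp
      refine le_trans ?_ (hpow j hj1 p hp)
      have e1 : 1 ≤ (N : ℝ) ^ (j * ε) := Real.one_le_rpow hN1 (by positivity)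
      exact le_mul_of_one_le_right (by positivity) e1) (by push_cast; exact hja) (by push_cast; exact hjb)
    refine key C1 hC10.le (by linarith) (h1.trans ?_)
    apply mul_le_mul_of_nonneg_right _ (by linarith)
    have e1 : D ^ 3 * (D ^ J0) ^ 2 ≤ D ^ 102 * (D ^ J0) ^ 60 :=
      mul_le_mul (pow_le_pow_right₀ hD1 (by norm_num)) (pow_le_pow_right₀ hDJ1 (by norm_num)) (by positivity)
        (by positivity)
    calc 2000 * (D ^ 3 * (D ^ J0) ^ 2) ≤ 2000 * (K ^ m * (N : ℝ) ^ ε) :=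
          mul_le_mul_of_nonneg_left (e1.trans hfin) (by norm_num)
      _ ≤ (45 * (9 + 2 * J0) * (12 * 10 ^ 11) ^ 20 + 2000) * (K ^ m * (N : ℝ) ^ ε) := by
          apply mul_le_mul_of_nonneg_right _ (by positivity)
          have : (0 : ℝ) ≤ 45 * (9 + 2 * J0) * (12 * 10 ^ 11) ^ 20 := by positivity
          linarith
      _ = C1 * (N : ℝ) ^ ε := by rw [hC1]; ring
  · -- the critical range
    have hg29 : g < 2 / 9 := by
      by_contra hh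
      rw [not_lt] at hh
      have := alp_le' hh hg3
      linarith
    have hY1 : 1 ≤ M ^ 2 := Nat.one_le_pow _ _ hM
    have hT4N : (T : ℝ) ≤ 4 * N := by nlinarith
    have hq4N : (q : ℝ) ≤ 4 * N := by nlinarith
    have hE1 : 1 ≤ (N : ℝ) ^ (((2 : ℕ) : ℝ) * ε) := Real.one_le_rpow hN1 (by positivity)
    have h1 := case2 s hs hT hY1 (pc M c 2) (D := D) (Z := D ^ J0) hD1 (le_self_pow₀ hD1 (by omega))
      (hpc 2 (by omega)) (hlogpow 2 (by omega))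
      (hlog1 q (by linarith) hq4N) (hlog1 T (by linarith) hT4N) (by
        intro n hn1 hn2
        apply hdiv n
        have e1 : n ≤ 4 * N := by
          have : (n : ℝ) ≤ 4 * N := by
            have : (n : ℝ) ≤ q := by exact_mod_cast hn2
            linarith
          exact_mod_cast this
        exact e1.trans (Nat.le_self_pow (by omega) _)) W hWT hg hg29 hE1 (hpow 2 (by norm_num))
      (by push_cast; exact hj2) (by push_cast; exact hj3) (by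
        have e1 : ((N : ℝ) ^ (((2 : ℕ) : ℝ) * ε)) ^ 4 = ((N : ℝ) ^ ε) ^ 2 * (N : ℝ) ^ (2 * ε) * ((N : ℝ) ^ ε) ^ 4 := by
          have e2 : (N : ℝ) ^ (((2 : ℕ) : ℝ) * ε) = ((N : ℝ) ^ ε) ^ 2 := by
            rw [← Real.rpow_natCast ((N : ℝ) ^ ε), ← Real.rpow_mul hN0.le]
            congr 1
            ring
          have e3 : (N : ℝ) ^ (2 * ε) = ((N : ℝ) ^ ε) ^ 2 := by
            rw [← Real.rpow_natCast ((N : ℝ) ^ ε), ← Real.rpow_mul hN0.le]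
            congr 1
            push_cast
            ring
          rw [e2, e3]
          ring
        have e4 : D ^ 4 * (D ^ J0) ^ 2 ≤ K ^ m * (N : ℝ) ^ ε := by
          refine le_trans ?_ hfin
          exact mul_le_mul (pow_le_pow_right₀ hD1 (by norm_num)) (pow_le_pow_right₀ hDJ1 (by norm_num))
            (by positivity) (by positivity)
        have e5 : 1 ≤ ((N : ℝ) ^ ε) ^ 4 := one_le_pow₀ hNe
        calc 8 * (3000 * D ^ 4 * (D ^ J0) ^ 2) ^ 2 = 8 * (3000 * (D ^ 4 * (D ^ J0) ^ 2)) ^ 2 := by ring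
          _ ≤ 8 * (3000 * (K ^ m * (N : ℝ) ^ ε)) ^ 2 := by gcongr
          _ = ((N : ℝ) ^ ε) ^ 2 * A := by rw [hA]; ring
          _ ≤ ((N : ℝ) ^ ε) ^ 2 * (N : ℝ) ^ (2 * ε) := mul_le_mul_of_nonneg_left hAN (by positivity)
          _ ≤ ((N : ℝ) ^ ε) ^ 2 * (N : ℝ) ^ (2 * ε) * ((N : ℝ) ^ ε) ^ 4 :=
              le_mul_of_one_le_right (by positivity) e5
          _ = _ := e1.symm) J0 le_rfl
    refine key C1 hC10.le (by linarith) (h1.trans ?_)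
    apply mul_le_mul_of_nonneg_right _ (by linarith)
    calc 45 * (9 + 2 * (J0 : ℝ)) * (12 * 10 ^ 11) ^ 20 * (D ^ 102 * (D ^ J0) ^ 60) ≤
        45 * (9 + 2 * (J0 : ℝ)) * (12 * 10 ^ 11) ^ 20 * (K ^ m * (N : ℝ) ^ ε) :=
          mul_le_mul_of_nonneg_left hfin (by positivity)
      _ ≤ (45 * (9 + 2 * J0) * (12 * 10 ^ 11) ^ 20 + 2000) * (K ^ m * (N : ℝ) ^ ε) := by
          apply mul_le_mul_of_nonneg_right _ (by positivity)
          linarith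
      _ = C1 * (N : ℝ) ^ ε := by rw [hC1]; ring

end Pool.Agent.Helper25.WL
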