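import Pool.Agent.Helper25.HM.K8

/-!
# WL-A: Halász-Montgomery for cells

Large values at real points `s p ∈ [p.2, p.2 + 1]`, one point for each cell `(χ, k)`.
-/

set_option autoImplicit false

namespace Pool.Agent.Helper25.WL

open Finset
open Pool.Agent.Helper25.HM

/-- The Dirichlet polynomial over `(L, L']` at a real point. -/
noncomputable def DR {q : ℕ} (L L' : ℕ) (b : ℕ → ℂ) (χ : DirichletCharacter ℂ q) (t : ℝ) : ℂ :=
  ∑ n ∈ Ioc L L', b n * (χ (n : ZMod q) * nt n t)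

theorem hmR {q : ℕ} [NeZero q] (s : DirichletCharacter ℂ q × ℤ → ℝ)
    (hs : ∀ p, (p.2 : ℝ) ≤ s p ∧ s p ≤ p.2 + 1) (W : Finset (DirichletCharacter ℂ q × ℤ)) (H : ℕ)
    (hW : ∀ p ∈ W, ∀ p' ∈ W, |p.2 - p'.2| ≤ H) {L L' : ℕ} (hL' : L' ≤ 2 * L + 1)
    (b : ℕ → ℂ) {B : ℝ} (hb : ∀ n ∈ Ioc L L', ‖b n‖ ≤ B) {V : ℝ} (hV : 0 ≤ V)
    (hVW : ∀ p ∈ W, V ≤ ‖DR L L' b p.1 (s p)‖) :
    (W.card : ℝ) ^ 2 * V ^ 2 ≤ B ^ 2 * (L + 1) * (q.divisors.card * ((W.card : ℝ) ^ 2 *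
      (200 * Real.sqrt q * Real.sqrt (H + 1) + 4 * Real.sqrt q * (1 + Real.log q)) +
        W.card * (120 * L * (3 + 2 * Real.log (H + 1))))) := by
  classical
  have hlogq : 0 ≤ Real.log q := Real.log_natCast_nonneg q
  set τ : ℝ := (q.divisors.card : ℝ) with hτ
  set X : ℝ := 200 * Real.sqrt q * Real.sqrt (H + 1) + 4 * Real.sqrt q * (1 + Real.log q) with hX
  have hgap : ∀ p p' : DirichletCharacter ℂ q × ℤ, |((p.2 - p'.2 : ℤ) : ℝ)| ≤ |s p - s p'| + 1 ∧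
      |s p - s p'| ≤ |((p.2 - p'.2 : ℤ) : ℝ)| + 1 := by
    intro p p'
    have a1 := hs p
    have a2 := hs p'
    push_cast
    constructor
    · rw [abs_le]
      have a3 := neg_abs_le (s p - s p')
      have a4 := le_abs_self (s p - s p')
      constructor <;> linarith
    · rw [abs_le]
      have a3 := neg_abs_le ((p.2 : ℝ) - p'.2)
      have a4 := le_abs_self ((p.2 : ℝ) - p'.2)
      constructor <;> linarith
  -- unimodular coefficients
  have hc : ∀ z : ℂ, ∃ c : ℂ, ‖c‖ = 1 ∧ c * z = ‖z‖ := by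
    intro z
    by_cases hz : z = 0
    · exact ⟨1, norm_one, by simp [hz]⟩
    · have hn : (‖z‖ : ℂ) ≠ 0 := by exact_mod_cast norm_ne_zero_iff.2 hz
      refine ⟨(starRingEnd ℂ) z / ‖z‖, ?_, ?_⟩
      · rw [norm_div, Complex.norm_conj, Complex.norm_real, norm_norm, div_self (norm_ne_zero_iff.2 hz)]
      · rw [div_mul_eq_mul_div, Complex.conj_mul']
        field_simp
  choose c hc1 hc2 using hc
  set cc : DirichletCharacter ℂ q × ℤ → ℂ := fun p => c (DR L L' b p.1 (s p)) with hcc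
  set P : ℕ → ℂ := fun n => ∑ p ∈ W, cc p * (p.1 (n : ZMod q) * nt n (s p)) with hP
  have h1 : (W.card : ℝ) * V ≤ ‖∑ n ∈ Ioc L L', b n * P n‖ := by
    have e1 : ∑ n ∈ Ioc L L', b n * P n = ((∑ p ∈ W, ‖DR L L' b p.1 (s p)‖ : ℝ) : ℂ) := by
      push_cast
      simp_rw [hP, mul_sum]
      rw [sum_comm]
      refine sum_congr rfl fun p _ => ?_
      rw [← hc2, hcc]
      simp only [DR, mul_sum]
      refine sum_congr rfl fun n _ => ?_
      ring
    rw [e1, Complex.norm_real, Real.norm_eq_abs, abs_of_nonneg (sum_nonneg fun _ _ => norm_nonneg _)]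
    rw [← nsmul_eq_mul]
    exact card_nsmul_le_sum W _ V hVW
  have hB2 : ∑ n ∈ Ioc L L', ‖b n‖ ^ 2 ≤ B ^ 2 * (L + 1) := by
    have : ∀ n ∈ Ioc L L', ‖b n‖ ^ 2 ≤ B ^ 2 := fun n hn =>
      pow_le_pow_left₀ (norm_nonneg _) (hb n hn) 2
    refine (sum_le_sum this).trans ?_
    rw [sum_const, Nat.card_Ioc, nsmul_eq_mul, mul_comm]
    apply mul_le_mul_of_nonneg_left _ (sq_nonneg B)
    have : L' - L ≤ L + 1 := by omega
    exact_mod_cast this
  have h2 : ((W.card : ℝ) * V) ^ 2 ≤ B ^ 2 * (L + 1) * ∑ n ∈ Ioc L L', ‖P n‖ ^ 2 := by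
    have h3 : ‖∑ n ∈ Ioc L L', b n * P n‖ ≤ ∑ n ∈ Ioc L L', ‖b n‖ * ‖P n‖ := by
      refine (norm_sum_le _ _).trans (le_of_eq ?_)
      exact sum_congr rfl fun n _ => norm_mul _ _
    have h4 := sum_mul_sq_le_sq_mul_sq (Ioc L L') (fun n => ‖b n‖) (fun n => ‖P n‖)
    calc ((W.card : ℝ) * V) ^ 2 ≤ (∑ n ∈ Ioc L L', ‖b n‖ * ‖P n‖) ^ 2 :=
          pow_le_pow_left₀ (by positivity) (h1.trans h3) 2
      _ ≤ _ := h4.trans (mul_le_mul_of_nonneg_right hB2 (sum_nonneg fun _ _ => sq_nonneg _))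
  have h5 : ∑ n ∈ Ioc L L', ‖P n‖ ^ 2 ≤ ∑ p ∈ W, ∑ p' ∈ W,
      ‖∑ n ∈ Ioc L L', (p.1 * p'.1⁻¹) (n : ZMod q) * nt n (s p - s p')‖ := by
    have e1 : ((∑ n ∈ Ioc L L', ‖P n‖ ^ 2 : ℝ) : ℂ) = ∑ p ∈ W, ∑ p' ∈ W,
        (cc p * (starRingEnd ℂ) (cc p')) *
          ∑ n ∈ Ioc L L', (p.1 * p'.1⁻¹) (n : ZMod q) * nt n (s p - s p') := by
      push_cast
      simp_rw [mul_sum]
      have : ∀ n ∈ Ioc L L', (‖P n‖ : ℂ) ^ 2 = ∑ p ∈ W, ∑ p' ∈ W,
          (cc p * (starRingEnd ℂ) (cc p')) * ((p.1 * p'.1⁻¹) (n : ZMod q) *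
            nt n (s p - s p')) := by
        intro n _
        rw [← Complex.mul_conj', hP]
        simp only
        rw [map_sum, sum_mul_sum]
        refine sum_congr rfl fun p _ => sum_congr rfl fun p' _ => ?_
        rw [map_mul, map_mul, conj_nt, sub_eq_add_neg, nt_add, MulChar.mul_apply]
        have : (starRingEnd ℂ) (p'.1 (n : ZMod q)) = p'.1⁻¹ (n : ZMod q) := MulChar.star_apply' _ _
        rw [this]
        ring
      rw [sum_congr rfl this, sum_comm]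
      refine sum_congr rfl fun p _ => ?_
      rw [sum_comm]
    have h6 : ∑ n ∈ Ioc L L', ‖P n‖ ^ 2 = ‖((∑ n ∈ Ioc L L', ‖P n‖ ^ 2 : ℝ) : ℂ)‖ := by
      rw [Complex.norm_real, Real.norm_eq_abs, abs_of_nonneg (sum_nonneg fun _ _ => sq_nonneg _)]
    rw [h6, e1]
    refine (norm_sum_le _ _).trans (sum_le_sum fun p _ => ?_)
    refine (norm_sum_le _ _).trans (sum_le_sum fun p' _ => ?_)
    rw [norm_mul, norm_mul, Complex.norm_conj]
    simp only [hcc, hc1]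
    rw [one_mul, one_mul]
  have h7 : ∀ p ∈ W, ∑ p' ∈ W,
      ‖∑ n ∈ Ioc L L', (p.1 * p'.1⁻¹) (n : ZMod q) * nt n (s p - s p')‖ ≤
      τ * (W.card * X + 120 * L * (3 + 2 * Real.log (H + 1))) := by
    intro p hp
    have h8 : ∀ p' ∈ W,
        ‖∑ n ∈ Ioc L L', (p.1 * p'.1⁻¹) (n : ZMod q) * nt n (s p - s p')‖ ≤
        τ * (X + (if p.1 = p'.1 then 120 * (L * (1 / (1 + |((p.2 - p'.2 : ℤ) : ℝ)|))) else 0)) := by
      intro p' hp'
      refine (kernel (p.1 * p'.1⁻¹) hL' _).trans ?_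
      have h9 : |s p - s p'| ≤ H + 1 := by
        have h90 : |((p.2 - p'.2 : ℤ) : ℝ)| ≤ H := by
          have := hW p hp p' hp'
          exact_mod_cast this
        linarith [(hgap p p').2]
      have h10 : Real.sqrt |s p - s p'| ≤ Real.sqrt (H + 1) := Real.sqrt_le_sqrt h9
      have h11 : (if p.1 * p'.1⁻¹ = 1 then 60 * ((L : ℝ) / (1 + |s p - s p'|)) else 0) ≤
          (if p.1 = p'.1 then 120 * (L * (1 / (1 + |((p.2 - p'.2 : ℤ) : ℝ)|))) else 0) := by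
        have : (p.1 * p'.1⁻¹ = 1) ↔ p.1 = p'.1 := mul_inv_eq_one
        simp only [this]
        split_ifs
        · have g1 := (hgap p p').1
          have g2 : 0 ≤ |s p - s p'| := abs_nonneg _
          have g3 : 0 ≤ |((p.2 - p'.2 : ℤ) : ℝ)| := abs_nonneg _
          have hL0 : (0 : ℝ) ≤ L := Nat.cast_nonneg L
          rw [mul_one_div, mul_div_assoc', mul_div_assoc', div_le_div_iff₀ (by linarith) (by linarith)]
          nlinarith
        · exact le_rfl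
      rw [hX]
      have h12 : 200 * Real.sqrt q * Real.sqrt |s p - s p'| ≤ 200 * Real.sqrt q * Real.sqrt (H + 1) :=
        mul_le_mul_of_nonneg_left h10 (by positivity)
      apply mul_le_mul_of_nonneg_left _ (by positivity)
      linarith
    refine (sum_le_sum h8).trans ?_
    rw [← mul_sum, sum_add_distrib, sum_const, nsmul_eq_mul]
    apply mul_le_mul_of_nonneg_left _ (by positivity)
    have h12 : ∑ p' ∈ W, (if p.1 = p'.1 then
        120 * (L * (1 / (1 + |((p.2 - p'.2 : ℤ) : ℝ)|))) else 0) ≤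
        120 * L * (3 + 2 * Real.log (H + 1)) := by
      rw [← sum_filter]
      have h13 : ∑ p' ∈ W.filter (fun p' => p.1 = p'.1),
          120 * (L * (1 / (1 + |((p.2 - p'.2 : ℤ) : ℝ)|))) ≤
          ∑ j ∈ Icc (-(H : ℤ)) H, 120 * ((L : ℝ) * (1 / (1 + |(j : ℝ)|))) := by
        have hinj : Set.InjOn (fun p' : DirichletCharacter ℂ q × ℤ => p.2 - p'.2)
            (W.filter (fun p' => p.1 = p'.1)) := by
          intro x hx y hy hxy
          simp only [coe_filter, Set.mem_setOf_eq] at hx hy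
          have : x.2 = y.2 := by
            simp only at hxy
            omega
          exact Prod.ext (hx.2.symm.trans hy.2) this
        rw [← sum_image (f := fun j : ℤ => 120 * ((L : ℝ) * (1 / (1 + |(j : ℝ)|)))) hinj]
        apply sum_le_sum_of_subset_of_nonneg
        · intro j hj
          rw [mem_image] at hj
          obtain ⟨p', hp', rfl⟩ := hj
          rw [mem_filter] at hp'
          have := hW p hp p' hp'.1
          rw [abs_le] at this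
          exact mem_Icc.2 this
        · intro j _ _
          positivity
      refine h13.trans ?_
      simp_rw [← mul_assoc]
      rw [← mul_sum]
      exact mul_le_mul_of_nonneg_left (sum_inv_abs H) (by positivity)
    linarith
  have h14 : ∑ n ∈ Ioc L L', ‖P n‖ ^ 2 ≤
      W.card * (τ * (W.card * X + 120 * L * (3 + 2 * Real.log (H + 1)))) := by
    refine h5.trans ((sum_le_sum h7).trans (le_of_eq ?_))
    rw [sum_const, nsmul_eq_mul]
  calc (W.card : ℝ) ^ 2 * V ^ 2 = ((W.card : ℝ) * V) ^ 2 := by ring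
    _ ≤ B ^ 2 * (L + 1) * ∑ n ∈ Ioc L L', ‖P n‖ ^ 2 := h2
    _ ≤ B ^ 2 * (L + 1) * (W.card * (τ * (W.card * X + 120 * L * (3 + 2 * Real.log (H + 1))))) := by
      gcongr
    _ = _ := by ring

theorem huxleyR {q : ℕ} [NeZero q] (s : DirichletCharacter ℂ q × ℤ → ℝ)
    (hs : ∀ p, (p.2 : ℝ) ≤ s p ∧ s p ≤ p.2 + 1) (W : Finset (DirichletCharacter ℂ q × ℤ)) (H : ℕ) (hH : 1 ≤ H)
    (T : ℕ) (hT : ∀ p ∈ W, |p.2| ≤ T) {L L' : ℕ} (hL' : L' ≤ 2 * L + 1)
    (b : ℕ → ℂ) {B : ℝ} (hb : ∀ n ∈ Ioc L L', ‖b n‖ ≤ B) {V : ℝ} (hV : 0 ≤ V)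
    (hVW : ∀ p ∈ W, V ≤ ‖DR L L' b p.1 (s p)‖)
    (hcond : 2 * (B ^ 2 * (L + 1) * (q.divisors.card *
      (200 * Real.sqrt q * Real.sqrt (H + 1) + 4 * Real.sqrt q * (1 + Real.log q)))) ≤ V ^ 2) :
    (W.card : ℝ) * V ^ 2 ≤ (2 * T / H + 1) * (2 * (B ^ 2 * (L + 1) * (q.divisors.card *
      (120 * L * (3 + 2 * Real.log (H + 1)))))) := by
  classical
  set τ : ℝ := (q.divisors.card : ℝ) with hτ
  set X : ℝ := 200 * Real.sqrt q * Real.sqrt (H + 1) + 4 * Real.sqrt q * (1 + Real.log q) with hX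
  set Y : ℝ := 120 * L * (3 + 2 * Real.log (H + 1)) with hY
  have hlogH : 0 ≤ Real.log ((H : ℝ) + 1) :=
    Real.log_nonneg (by linarith [(Nat.cast_nonneg H : (0 : ℝ) ≤ H)])
  have hY0 : 0 ≤ Y := by positivity
  have hR : 0 ≤ 2 * (B ^ 2 * (L + 1) * (τ * Y)) := by positivity
  have hfib : ∀ U : Finset (DirichletCharacter ℂ q × ℤ), U ⊆ W →
      (∀ p ∈ U, ∀ p' ∈ U, |p.2 - p'.2| ≤ H) →
      (U.card : ℝ) * V ^ 2 ≤ 2 * (B ^ 2 * (L + 1) * (τ * Y)) := by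
    intro U hU hUH
    have h1 := hmR s hs U H hUH hL' b hb hV (fun p hp => hVW p (hU hp))
    rw [← hτ, ← hX, ← hY] at h1
    rcases Nat.eq_zero_or_pos U.card with h0 | h0
    · rw [h0]
      simpa using hR
    · have h2 : (0 : ℝ) < U.card := by exact_mod_cast h0
      have h3 : (U.card : ℝ) * (U.card * V ^ 2) ≤ U.card * (2 * (B ^ 2 * (L + 1) * (τ * Y))) := by
        nlinarith [mul_le_mul_of_nonneg_left hcond (sq_nonneg (U.card : ℝ))]
      exact le_of_mul_le_mul_left h3 h2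
  set J : ℕ := 2 * T / H + 1 with hJ
  have hmap : ∀ p ∈ W, ((p.2 + T).toNat / H) ∈ range J := by
    intro p hp
    have h1 := hT p hp
    rw [abs_le] at h1
    rw [mem_range, hJ, Nat.lt_succ_iff]
    apply Nat.div_le_div_right
    omega
  have hcard := card_eq_sum_card_fiberwise (f := fun p : DirichletCharacter ℂ q × ℤ =>
    (p.2 + T).toNat / H) (s := W) (t := range J) hmap
  have h1 : (W.card : ℝ) * V ^ 2 ≤ ∑ _j ∈ range J, 2 * (B ^ 2 * (L + 1) * (τ * Y)) := by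
    rw [hcard]
    push_cast
    rw [sum_mul]
    refine sum_le_sum fun j _ => ?_
    apply hfib _ (filter_subset _ _)
    intro p hp p' hp'
    rw [mem_filter] at hp hp'
    have h2 := hT p hp.1
    have h3 := hT p' hp'.1
    rw [abs_le] at h2 h3
    have e1 := Nat.div_add_mod (p.2 + T).toNat H
    have e2 := Nat.div_add_mod (p'.2 + T).toNat H
    have m1 := Nat.mod_lt (p.2 + T).toNat (by omega : H > 0)
    have m2 := Nat.mod_lt (p'.2 + T).toNat (by omega : H > 0)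
    rw [hp.2] at e1
    rw [hp'.2] at e2
    rw [abs_le]
    omega
  refine h1.trans ?_
  rw [sum_const, card_range, nsmul_eq_mul]
  apply mul_le_mul_of_nonneg_right _ hR
  rw [hJ]
  push_cast
  have h4 : ((2 * T / H : ℕ) : ℝ) ≤ 2 * T / H := by
    have := Nat.cast_div_le (α := ℝ) (m := 2 * T) (n := H)
    push_cast at this
    exact this
  linarith


/-- The Dirichlet polynomial over `[1, M]` at a real point. -/
noncomputable def PR {q : ℕ} (M : ℕ) (b : ℕ → ℂ) (χ : DirichletCharacter ℂ q) (t : ℝ) : ℂ :=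
  ∑ n ∈ Icc 1 M, b n * (χ (n : ZMod q) * nt n t)

lemma PR_eq {q : ℕ} (M : ℕ) (b : ℕ → ℂ) (χ : DirichletCharacter ℂ q) (t : ℝ) :
    PR M b χ t = ∑ j ∈ range (JJ M), DR (2 ^ j - 1) (2 ^ (j + 1) - 1) (tr M b) χ t := by
  unfold DR
  rw [← Icc_dyadic (JJ M) (fun n => tr M b n * (χ (n : ZMod q) * nt n t))]
  unfold PR tr
  have hM : M < 2 ^ (JJ M) := Nat.lt_pow_succ_log_self (by norm_num) M
  simp_rw [ite_mul, zero_mul]
  rw [← sum_filter]
  apply sum_congr _ (fun _ _ => rfl)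
  ext n
  simp only [mem_Icc, mem_filter]
  omega

/-- The Halász-Montgomery-Huxley bound for cells, `n ≤ M`. -/
theorem hm_fullR {q : ℕ} [NeZero q] (s : DirichletCharacter ℂ q × ℤ → ℝ)
    (hs : ∀ p, (p.2 : ℝ) ≤ s p ∧ s p ≤ p.2 + 1) (W : Finset (DirichletCharacter ℂ q × ℤ)) (H : ℕ) (hH : 1 ≤ H)
    (T : ℕ) (hT : ∀ p ∈ W, |p.2| ≤ T) {M : ℕ} (hM : 1 ≤ M)
    (b : ℕ → ℂ) {B : ℝ} (hB : 0 ≤ B) (hb : ∀ n ∈ Icc 1 M, ‖b n‖ ≤ B) {V : ℝ} (hV : 0 ≤ V)
    (hVW : ∀ p ∈ W, V ≤ ‖PR M b p.1 (s p)‖)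
    (hcond : 2 * (JJ M : ℝ) ^ 2 * (B ^ 2 * M * (q.divisors.card *
      (200 * Real.sqrt q * Real.sqrt (H + 1) + 4 * Real.sqrt q * (1 + Real.log q)))) ≤ V ^ 2) :
    (W.card : ℝ) * V ^ 2 ≤ (JJ M : ℝ) ^ 3 * ((2 * T / H + 1) * (240 * (B ^ 2 * M ^ 2 * (q.divisors.card *
      (3 + 2 * Real.log (H + 1)))))) := by
  classical
  have hlogq : 0 ≤ Real.log q := Real.log_natCast_nonneg q
  have hlogH : 0 ≤ Real.log ((H : ℝ) + 1) :=
    Real.log_nonneg (by linarith [(Nat.cast_nonneg H : (0 : ℝ) ≤ H)])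
  have hM1 : (1 : ℝ) ≤ M := by exact_mod_cast hM
  have hJ0 : (0 : ℝ) < JJ M := by
    have : 0 < JJ M := by unfold JJ; omega
    exact_mod_cast this
  set τ : ℝ := (q.divisors.card : ℝ) with hτ
  set X : ℝ := 200 * Real.sqrt q * Real.sqrt (H + 1) + 4 * Real.sqrt q * (1 + Real.log q) with hX
  have hX0 : 0 ≤ X := by positivity
  have hτ0 : 0 ≤ τ := Nat.cast_nonneg _
  set V' : ℝ := V / JJ M with hV'
  have hV'0 : 0 ≤ V' := by positivity
  set Wj : ℕ → Finset (DirichletCharacter ℂ q × ℤ) := fun j => W.filter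
    (fun p => V' ≤ ‖DR (2 ^ j - 1) (2 ^ (j + 1) - 1) (tr M b) p.1 (s p)‖) with hWj
  have hcov : W ⊆ (range (JJ M)).biUnion Wj := by
    intro p hp
    by_contra hcon
    have h1 : ∀ j ∈ range (JJ M), ‖DR (2 ^ j - 1) (2 ^ (j + 1) - 1) (tr M b) p.1 (s p)‖ < V' := by
      intro j hj
      by_contra h2
      push Not at h2
      apply hcon
      rw [mem_biUnion]
      exact ⟨j, hj, mem_filter.2 ⟨hp, h2⟩⟩
    have h2 : ‖PR M b p.1 (s p)‖ < V := by
      rw [PR_eq]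
      refine lt_of_le_of_lt (norm_sum_le _ _) ?_
      have h3 : ∑ j ∈ range (JJ M), ‖DR (2 ^ j - 1) (2 ^ (j + 1) - 1) (tr M b) p.1 (s p)‖ <
          ∑ _j ∈ range (JJ M), V' := by
        apply sum_lt_sum_of_nonempty _ h1
        rw [nonempty_range_iff]
        unfold JJ
        omega
      rw [sum_const, card_range, nsmul_eq_mul, hV', mul_div_cancel₀ _ hJ0.ne'] at h3
      exact h3
    exact absurd (hVW p hp) (not_le.2 h2)
  have hpiece : ∀ j ∈ range (JJ M), ((Wj j).card : ℝ) * V' ^ 2 ≤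
      (2 * T / H + 1) * (240 * (B ^ 2 * M ^ 2 * (τ * (3 + 2 * Real.log (H + 1))))) := by
    intro j hj
    have hjM := piece_le hj hM
    have h2 : 2 ^ (j + 1) = 2 ^ j * 2 := pow_succ 2 j
    have h3 : 1 ≤ 2 ^ j := Nat.one_le_two_pow
    have hL1 : (((2 ^ j - 1 : ℕ) : ℝ) + 1) ≤ M := by
      have : 2 ^ j - 1 + 1 ≤ M := by omega
      exact_mod_cast this
    have hL2 : ((2 ^ j - 1 : ℕ) : ℝ) ≤ M := by linarith
    have hL0 : (0 : ℝ) ≤ ((2 ^ j - 1 : ℕ) : ℝ) := Nat.cast_nonneg _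
    have h4 := huxleyR s hs (Wj j) H hH T (fun p hp => hT p (mem_filter.1 hp).1)
      (L := 2 ^ j - 1) (L' := 2 ^ (j + 1) - 1) (by omega) (tr M b) (B := B)
      (by
        intro n hn
        unfold tr
        split_ifs with h
        · rw [mem_Ioc] at hn
          exact hb n (mem_Icc.2 ⟨by omega, h⟩)
        · rw [norm_zero]; exact hB) hV'0 (fun p hp => (mem_filter.1 hp).2)
      (by
        rw [← hτ, ← hX]
        have h5 : B ^ 2 * (((2 ^ j - 1 : ℕ) : ℝ) + 1) * (τ * X) ≤ B ^ 2 * M * (τ * X) := by gcongr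
        have h6 : 2 * (B ^ 2 * M * (τ * X)) ≤ V' ^ 2 := by
          rw [hV', div_pow, le_div_iff₀ (by positivity)]
          linarith
        linarith)
    refine h4.trans ?_
    rw [← hτ]
    have hT0 : (0 : ℝ) ≤ 2 * T / H + 1 := by positivity
    apply mul_le_mul_of_nonneg_left _ hT0
    have h7 : B ^ 2 * (((2 ^ j - 1 : ℕ) : ℝ) + 1) * (τ * (120 * ((2 ^ j - 1 : ℕ) : ℝ) *
        (3 + 2 * Real.log (H + 1)))) ≤ B ^ 2 * M * (τ * (120 * M * (3 + 2 * Real.log (H + 1)))) := by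
      gcongr
    calc 2 * (B ^ 2 * (((2 ^ j - 1 : ℕ) : ℝ) + 1) * (τ * (120 * ((2 ^ j - 1 : ℕ) : ℝ) *
        (3 + 2 * Real.log (H + 1))))) ≤ 2 * (B ^ 2 * M * (τ * (120 * M * (3 + 2 * Real.log (H + 1))))) := by
          linarith
      _ = 240 * (B ^ 2 * M ^ 2 * (τ * (3 + 2 * Real.log (H + 1)))) := by ring
  have h1 : (W.card : ℝ) ≤ ∑ j ∈ range (JJ M), ((Wj j).card : ℝ) := by
    have := (card_le_card hcov).trans card_biUnion_le
    exact_mod_cast this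
  have h2 : (W.card : ℝ) * V' ^ 2 ≤ (JJ M) * ((2 * T / H + 1) * (240 * (B ^ 2 * M ^ 2 *
      (τ * (3 + 2 * Real.log (H + 1)))))) := by
    calc (W.card : ℝ) * V' ^ 2 ≤ (∑ j ∈ range (JJ M), ((Wj j).card : ℝ)) * V' ^ 2 :=
          mul_le_mul_of_nonneg_right h1 (sq_nonneg _)
      _ = ∑ j ∈ range (JJ M), ((Wj j).card : ℝ) * V' ^ 2 := sum_mul _ _ _
      _ ≤ ∑ _j ∈ range (JJ M), (2 * T / H + 1) * (240 * (B ^ 2 * M ^ 2 *
          (τ * (3 + 2 * Real.log (H + 1))))) := sum_le_sum hpiece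
      _ = _ := by rw [sum_const, card_range, nsmul_eq_mul]
  have h3 : V ^ 2 = (JJ M : ℝ) ^ 2 * V' ^ 2 := by
    rw [hV', div_pow]
    field_simp
  rw [h3]
  calc (W.card : ℝ) * ((JJ M : ℝ) ^ 2 * V' ^ 2) = (JJ M : ℝ) ^ 2 * ((W.card : ℝ) * V' ^ 2) := by ring
    _ ≤ (JJ M : ℝ) ^ 2 * ((JJ M) * ((2 * T / H + 1) * (240 * (B ^ 2 * M ^ 2 *
      (τ * (3 + 2 * Real.log (H + 1))))))) := mul_le_mul_of_nonneg_left h2 (by positivity)
    _ = _ := by ring

end Pool.Agent.Helper25.WL
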