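import Pool.Agent.Helper25.WL.CellB
import Pool.Agent.Helper25.HM.M5E

/-!
# WL-Pow: powers of Dirichlet polynomials at real points
-/

set_option autoImplicit false

namespace Pool.Agent.Helper25.WL

open Finset
open Pool.Agent.Helper25.HM

lemma PR_mul {q : ℕ} (A B : ℕ) (f g : ℕ → ℂ) (χ : DirichletCharacter ℂ q) (t : ℝ) :
    PR A f χ t * PR B g χ t = PR (A * B) (cv A B f g) χ t := by
  unfold PR
  rw [Finset.sum_mul_sum, ← Finset.sum_product']
  have hm : ∀ p ∈ Icc 1 A ×ˢ Icc 1 B, p.1 * p.2 ∈ Icc 1 (A * B) := by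
    intro p hp
    rw [Finset.mem_product, Finset.mem_Icc, Finset.mem_Icc] at hp
    rw [Finset.mem_Icc]
    exact ⟨Nat.mul_pos hp.1.1 hp.2.1, Nat.mul_le_mul hp.1.2 hp.2.2⟩
  rw [← Finset.sum_fiberwise_of_maps_to hm]
  refine Finset.sum_congr rfl fun n _ => ?_
  unfold cv
  rw [Finset.sum_mul]
  refine Finset.sum_congr rfl fun r hr => ?_
  have h1 : r.1 * r.2 = n := (Finset.mem_filter.1 hr).2
  have h2 := (Finset.mem_filter.1 hr).1
  rw [Finset.mem_product, Finset.mem_Icc, Finset.mem_Icc] at h2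
  rw [← h1, Nat.cast_mul, map_mul, nt_mul (by omega) (by omega)]
  ring

lemma cv_leB {A B : ℕ} {f g : ℕ → ℂ} {a b : ℝ} (ha : 0 ≤ a) (hb : 0 ≤ b) (hf : ∀ n ∈ Icc 1 A, ‖f n‖ ≤ a)
    (hg : ∀ n ∈ Icc 1 B, ‖g n‖ ≤ b) (n : ℕ) : ‖cv A B f g n‖ ≤ a * b * (n.divisors.card : ℝ) := by
  unfold cv
  refine (norm_sum_le _ _).trans ?_
  have h1 : ∀ p ∈ (Icc 1 A ×ˢ Icc 1 B).filter (fun p => p.1 * p.2 = n), ‖f p.1 * g p.2‖ ≤ a * b := by
    intro p hp
    have hp' := Finset.mem_filter.1 hp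
    rw [Finset.mem_product] at hp'
    rw [norm_mul]
    exact mul_le_mul (hf _ hp'.1.1) (hg _ hp'.1.2) (norm_nonneg _) ha
  refine (Finset.sum_le_card_nsmul _ _ _ h1).trans ?_
  rw [nsmul_eq_mul, mul_comm]
  apply mul_le_mul_of_nonneg_left _ (by positivity)
  have h2 : ((Icc 1 A ×ˢ Icc 1 B).filter (fun p => p.1 * p.2 = n)).card ≤ n.divisors.card := by
    apply Finset.card_le_card_of_injOn (fun p => p.1)
    · intro p hp
      have hp' := Finset.mem_filter.1 (Finset.mem_coe.1 hp)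
      rw [Finset.mem_product, Finset.mem_Icc, Finset.mem_Icc] at hp'
      rw [Finset.mem_coe, Nat.mem_divisors]
      refine ⟨⟨p.2, hp'.2.symm⟩, ?_⟩
      rw [← hp'.2]
      exact (Nat.mul_pos hp'.1.1.1 hp'.1.2.1).ne'
    · intro p hp r hr he
      have hp' := Finset.mem_filter.1 (Finset.mem_coe.1 hp)
      have hr' := Finset.mem_filter.1 (Finset.mem_coe.1 hr)
      rw [Finset.mem_product, Finset.mem_Icc, Finset.mem_Icc] at hp' hr'
      have he' : p.1 = r.1 := he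
      have e1 : p.1 * p.2 = p.1 * r.2 := by rw [hp'.2, he', hr'.2]
      have e2 : p.2 = r.2 := Nat.eq_of_mul_eq_mul_left hp'.1.1.1 e1
      exact Prod.ext he' e2
  exact_mod_cast h2

/-- The coefficients of the powers. -/
noncomputable def pc (M : ℕ) (c : ℕ → ℂ) : ℕ → ℕ → ℂ
  | 0 => fun n => if n = 1 then 1 else 0
  | j + 1 => cv (M ^ j) M (pc M c j) c

lemma PR_pow {q : ℕ} (M : ℕ) (c : ℕ → ℂ) (χ : DirichletCharacter ℂ q) (t : ℝ) (j : ℕ) :
    PR M c χ t ^ j = PR (M ^ j) (pc M c j) χ t := by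
  induction j with
  | zero =>
    rw [pow_zero, pow_zero]
    unfold PR pc
    simp [nt]
  | succ j ih =>
    rw [pow_succ, ih, PR_mul, pow_succ]
    rfl

lemma pc_le {M : ℕ} {c : ℕ → ℂ} (hc : ∀ n, ‖c n‖ ≤ 1) {X : ℕ} {D : ℝ} (hD1 : 1 ≤ D)
    (hD : ∀ n : ℕ, n ≤ X → (n.divisors.card : ℝ) ≤ D) (j : ℕ) (hj : M ^ j ≤ X) :
    ∀ n ∈ Icc 1 (M ^ j), ‖pc M c j n‖ ≤ D ^ j := by
  induction j with
  | zero =>
    intro n _
    rw [pow_zero]
    unfold pc
    split_ifs <;> simp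
  | succ j ih =>
    intro n hn
    have hj' : M ^ j ≤ X := by
      rcases Nat.eq_zero_or_pos M with h0 | h0
      · rw [h0] at hn
        simp at hn
      · exact (Nat.pow_le_pow_right h0 (Nat.le_succ j)).trans hj
    have h1 := cv_leB (A := M ^ j) (B := M) (f := pc M c j) (g := c) (a := D ^ j) (b := 1)
      (by positivity) zero_le_one (ih hj') (fun n _ => hc n) n
    have h2 : n ≤ X := (mem_Icc.1 hn).2.trans hj
    calc ‖pc M c (j + 1) n‖ ≤ D ^ j * 1 * (n.divisors.card : ℝ) := h1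
      _ ≤ D ^ j * 1 * D := mul_le_mul_of_nonneg_left (hD n h2) (by positivity)
      _ = D ^ (j + 1) := by ring

lemma PR_triv {q : ℕ} (M : ℕ) {c : ℕ → ℂ} {B : ℝ} (hc : ∀ n ∈ Icc 1 M, ‖c n‖ ≤ B)
    (χ : DirichletCharacter ℂ q) (t : ℝ) : ‖PR M c χ t‖ ≤ M * B := by
  unfold PR
  refine (norm_sum_le _ _).trans ?_
  have : ∀ n ∈ Icc 1 M, ‖c n * (χ (n : ZMod q) * nt n t)‖ ≤ B := by
    intro n hn
    rw [norm_mul, norm_mul, norm_nt, mul_one]
    calc ‖c n‖ * ‖χ (n : ZMod q)‖ ≤ B * 1 :=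
          mul_le_mul (hc n hn) (χ.norm_le_one _) (norm_nonneg _) ((norm_nonneg _).trans (hc n hn))
      _ = B := mul_one B
  refine (sum_le_sum this).trans ?_
  rw [sum_const, Nat.card_Icc, nsmul_eq_mul]
  simp

end Pool.Agent.Helper25.WL
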