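import Pool.Agent.Helper5.WB.Defs

/-!
# WL-Gen: the counting statements of theorem W with a general exponent `ρ` and range `[g0, 1/2]`
-/

set_option autoImplicit false

namespace Pool.Agent.Helper25.WL

open ArithmeticFunction Finset
open Pool.Agent.Helper25.HM (nt)
open Pool.Helper5.WB

/-- the number of large values of a general factor -/
def FGr (ρ : ℝ → ℝ) (g0 : ℝ) : Prop := ∀ ε : ℝ, 0 < ε → ∃ C : ℝ, 0 < C ∧ ∀ (N : ℝ) (r : ℕ) [NeZero r] (T M : ℕ), 1 ≤ N → 1 ≤ T →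
  (r : ℝ) * T ≤ N → 1 ≤ M → (M : ℝ) ^ 2 ≤ 4 * (r * T) → ∀ c : ℕ → ℂ, (∀ n, ‖c n‖ ≤ 1) →
  ∀ s : DirichletCharacter ℂ r × ℤ → ℝ, (∀ p, (p.2 : ℝ) ≤ s p ∧ s p ≤ p.2 + 1) →
  ∀ W ⊆ (univ : Finset (DirichletCharacter ℂ r)) ×ˢ Icc (-(T : ℤ)) T, ∀ g : ℝ, g0 ≤ g → g ≤ 1 / 2 →
    (∀ p ∈ W, (M : ℝ) ^ (1 - g) * N ^ ε ≤ ‖PR M c p.1 (s p)‖) →
      (W.card : ℝ) ≤ C * N ^ ε * ((r : ℝ) * T) ^ (ρ g)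

/-- the number of large values of a smooth factor of length `2^e`, `(2^e)^2 ≥ r T` -/
def FSr (ρ : ℝ → ℝ) (g0 : ℝ) : Prop := ∀ ε : ℝ, 0 < ε → ∃ C : ℝ, 0 < C ∧ ∀ (N : ℝ) (q r : ℕ) [NeZero q] [NeZero r], r ∣ q →
  ∀ (T e z : ℕ), 1 ≤ N → 1 ≤ T → (q : ℝ) * T * 2 ^ e ≤ N → (r : ℝ) * T ≤ ((2 : ℝ) ^ e) ^ 2 →
  ∀ s : DirichletCharacter ℂ r × ℤ → ℝ, (∀ p, (p.2 : ℝ) ≤ s p ∧ s p ≤ p.2 + 1) →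
  ∀ W ⊆ (univ : Finset (DirichletCharacter ℂ r)) ×ˢ Icc (-(T : ℤ)) T,
    (∀ p ∈ W, ¬ (p.1 = 1 ∧ |(p.2 : ℝ)| ≤ N ^ ε)) → ∀ g : ℝ, g0 ≤ g → g ≤ 1 / 2 →
    (∀ p ∈ W, ((2 : ℝ) ^ e) ^ (1 - g) * N ^ ε ≤ ‖KF true z e q p.1 (s p)‖) →
      (W.card : ℝ) ≤ C * N ^ ε * ((r : ℝ) * T) ^ (ρ g)

/-- the number of large values of `Mt` -/
def LVr (ρ : ℝ → ℝ) (g0 : ℝ) : Prop := ∀ ε : ℝ, 0 < ε → ∃ C : ℝ, 0 < C ∧ ∀ (q r : ℕ) [NeZero q] [NeZero r], r ∣ q → ∀ (T X : ℕ) (M : ℝ),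
  1 ≤ T → 1 ≤ M → (r : ℝ) * T ≤ M → (q : ℝ) ≤ M ^ 2 → M ^ 2 ≤ X → (X : ℝ) ≤ M ^ 8 →
  ∀ s : DirichletCharacter ℂ r × ℤ → ℝ, (∀ p, (p.2 : ℝ) ≤ s p ∧ s p ≤ p.2 + 1) →
  ∀ W ⊆ (univ : Finset (DirichletCharacter ℂ r)) ×ˢ Icc (-(T : ℤ)) T,
    (∀ p ∈ W, ¬ (p.1 = 1 ∧ |(p.2 : ℝ)| ≤ M ^ ε)) → ∀ g : ℝ, g0 ≤ g → g ≤ 1 / 2 →
    (∀ p ∈ W, M ^ (1 - g + ε) ≤ ‖Mt X M q p.1 (s p)‖ * Real.sqrt M) →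
      (W.card : ℝ) ≤ C * M ^ ε * ((r : ℝ) * T) ^ (ρ g)

lemma FGr_iff : FGr (fun g => 27 * g / 11) (11 / 54) ↔ FG := Iff.rfl

lemma FSr_iff : FSr (fun g => 27 * g / 11) (11 / 54) ↔ FS := Iff.rfl

lemma LVr_iff : LVr (fun g => 27 * g / 11) (11 / 54) ↔ LVW := Iff.rfl

end Pool.Agent.Helper25.WL
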