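import Pool.Agent.Helper25.WL.Pow

/-!
# WL-TN: the mean value theorem and Huxley's bound for cells with a single loss factor
-/

set_option autoImplicit false

namespace Pool.Agent.Helper25.WL

open Finset
open Pool.Agent.Helper25.HM

lemma JJ_le {M : ℕ} (hM : 1 ≤ M) {Λ : ℝ} (hΛ : 1 + Real.log M ≤ Λ) : (JJ M : ℝ) ≤ 2 * Λ := by
  unfold JJ
  push_cast
  have h1 := log2_le M hM
  have h2 : 0 ≤ Real.log M := Real.log_nonneg (by exact_mod_cast hM)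
  linarith

/-- The mean value theorem for cells, one loss factor. -/
theorem T1L {q : ℕ} [NeZero q] (s : DirichletCharacter ℂ q × ℤ → ℝ)
    (hs : ∀ p, (p.2 : ℝ) ≤ s p ∧ s p ≤ p.2 + 1) (T : ℕ) (hT : 1 ≤ T) {M : ℕ} (hM : 1 ≤ M) (a : ℕ → ℂ)
    {B Λ : ℝ} (hB : ∀ n ∈ Icc 1 M, ‖a n‖ ≤ B) (hΛ : 1 + Real.log M ≤ Λ) :
    ∑ p ∈ (univ : Finset (DirichletCharacter ℂ q)) ×ˢ Icc (-(T : ℤ)) T, ‖PR M a p.1 (s p)‖ ^ 2 ≤
      400 * Λ ^ 3 * (B ^ 2 * ((q * T + M) * M)) := by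
  have hM1 : (1 : ℝ) ≤ M := by exact_mod_cast hM
  have hT1 : (1 : ℝ) ≤ T := by exact_mod_cast hT
  have hq1 : (1 : ℝ) ≤ q := by exact_mod_cast Nat.one_le_iff_ne_zero.2 (NeZero.ne q)
  have hl0 : 0 ≤ Real.log M := Real.log_nonneg hM1
  have hΛ1 : 1 ≤ Λ := by linarith
  have hB0 : 0 ≤ B := (norm_nonneg _).trans (hB 1 (mem_Icc.2 ⟨le_rfl, hM⟩))
  have h1 := mean_fullR s hs T hM a
  rw [sum_product]
  refine h1.trans ?_
  have hS : ∑ n ∈ Icc 1 M, ‖a n‖ ^ 2 ≤ M * B ^ 2 := by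
    have : ∀ n ∈ Icc 1 M, ‖a n‖ ^ 2 ≤ B ^ 2 := fun n hn => pow_le_pow_left₀ (norm_nonneg _) (hB n hn) 2
    refine (sum_le_sum this).trans ?_
    rw [sum_const, Nat.card_Icc, nsmul_eq_mul]
    simp
  have hJ := JJ_le hM hΛ
  have hJ0 : (0 : ℝ) ≤ JJ M := Nat.cast_nonneg _
  have h2 : 3 + 2 * Real.log M ≤ 3 * Λ := by linarith
  have h3 : Real.log (4 * M + 1) ≤ 2 + Real.log M := by
    have e1 : (4 : ℝ) * M + 1 ≤ 5 * M := by linarith
    have e2 : Real.log (4 * M + 1) ≤ Real.log (5 * M) := Real.log_le_log (by positivity) e1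
    rw [Real.log_mul (by norm_num) (by positivity)] at e2
    have e3 : Real.log 5 ≤ 2 := by
      have e4 : (5 : ℝ) ≤ Real.exp 2 := by
        have := Real.exp_one_gt_d9
        have e5 : Real.exp 2 = Real.exp 1 * Real.exp 1 := by rw [← Real.exp_add]; norm_num
        rw [e5]
        nlinarith
      calc Real.log 5 ≤ Real.log (Real.exp 2) := Real.log_le_log (by norm_num) e4
        _ = 2 := Real.log_exp 2
    linarith
  have h4 : (q : ℝ) * (2 * T + 1) + 16 * M * (1 + Real.log (4 * M + 1)) ≤ 48 * Λ * (q * T + M) := by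
    have e1 : (q : ℝ) * (2 * T + 1) ≤ 3 * (q * T) := by nlinarith
    have e2 : 16 * (M : ℝ) * (1 + Real.log (4 * M + 1)) ≤ 16 * M * (3 * Λ) := by
      apply mul_le_mul_of_nonneg_left _ (by positivity)
      linarith
    have e3 : 3 * ((q : ℝ) * T) ≤ 48 * Λ * (q * T) := by
      have : 0 ≤ (q : ℝ) * T := by positivity
      nlinarith
    nlinarith
  have h5 : 0 ≤ (q : ℝ) * (2 * T + 1) + 16 * M * (1 + Real.log (4 * M + 1)) := by
    have : 0 ≤ Real.log (4 * M + 1) := Real.log_nonneg (by linarith)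
    positivity
  calc (3 + 2 * Real.log M) * ((JJ M) * ((q * (2 * T + 1) + 16 * M * (1 + Real.log (4 * M + 1))) *
        ∑ n ∈ Icc 1 M, ‖a n‖ ^ 2))
      ≤ (3 * Λ) * ((2 * Λ) * ((48 * Λ * (q * T + M)) * (M * B ^ 2))) := by gcongr
    _ = 288 * (Λ ^ 3 * (B ^ 2 * ((q * T + M) * M))) := by ring
    _ ≤ 400 * (Λ ^ 3 * (B ^ 2 * ((q * T + M) * M))) := by
        apply mul_le_mul_of_nonneg_right (by norm_num)
        positivity
    _ = _ := by ring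

/-- The counting form of the mean value theorem for cells. -/
theorem T1C {q : ℕ} [NeZero q] (s : DirichletCharacter ℂ q × ℤ → ℝ)
    (hs : ∀ p, (p.2 : ℝ) ≤ s p ∧ s p ≤ p.2 + 1) (T : ℕ) (hT : 1 ≤ T) {M : ℕ} (hM : 1 ≤ M) (a : ℕ → ℂ)
    {B Λ : ℝ} (hB : ∀ n ∈ Icc 1 M, ‖a n‖ ≤ B) (hΛ : 1 + Real.log M ≤ Λ)
    (W : Finset (DirichletCharacter ℂ q × ℤ)) (hWT : ∀ p ∈ W, |p.2| ≤ T) {V : ℝ} (hV : 0 ≤ V)
    (hVW : ∀ p ∈ W, V ≤ ‖PR M a p.1 (s p)‖) :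
    (W.card : ℝ) * V ^ 2 ≤ 400 * Λ ^ 3 * (B ^ 2 * ((q * T + M) * M)) := by
  refine le_trans ?_ (T1L s hs T hT hM a hB hΛ)
  have hsub : W ⊆ (univ : Finset (DirichletCharacter ℂ q)) ×ˢ Icc (-(T : ℤ)) T := by
    intro p hp
    rw [mem_product, mem_Icc]
    have := hWT p hp
    rw [abs_le] at this
    exact ⟨mem_univ _, this⟩
  calc (W.card : ℝ) * V ^ 2 = ∑ _p ∈ W, V ^ 2 := by rw [sum_const, nsmul_eq_mul]
    _ ≤ ∑ p ∈ W, ‖PR M a p.1 (s p)‖ ^ 2 := sum_le_sum fun p hp => pow_le_pow_left₀ hV (hVW p hp) 2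
    _ ≤ _ := sum_le_sum_of_subset_of_nonneg hsub fun _ _ _ => sq_nonneg _

/-- Huxley's bound for cells, one loss factor. -/
theorem T2C {q : ℕ} [NeZero q] (s : DirichletCharacter ℂ q × ℤ → ℝ)
    (hs : ∀ p, (p.2 : ℝ) ≤ s p ∧ s p ≤ p.2 + 1) (T : ℕ) (hT : 1 ≤ T) {M : ℕ} (hM : 1 ≤ M) (a : ℕ → ℂ)
    {B Λ : ℝ} (hB1 : 1 ≤ B) (hB : ∀ n ∈ Icc 1 M, ‖a n‖ ≤ B) (hΛM : 1 + Real.log M ≤ Λ)
    (hΛq : 1 + Real.log q ≤ Λ) (hΛT : 1 + Real.log T ≤ Λ) (hΛd : (q.divisors.card : ℝ) ≤ Λ)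
    (W : Finset (DirichletCharacter ℂ q × ℤ)) (hWT : ∀ p ∈ W, |p.2| ≤ T) {V : ℝ} (hV : 0 < V)
    (hVW : ∀ p ∈ W, V ≤ ‖PR M a p.1 (s p)‖)
    (hcond : 3000 * Λ ^ 4 * B ^ 2 * M * Real.sqrt q ≤ V ^ 2) :
    (W.card : ℝ) ≤ 10 ^ 12 * Λ ^ 13 * (B ^ 2 * M ^ 2 / V ^ 2 + q * T * (B ^ 6 * M ^ 4) / V ^ 6) := by
  have hM1 : (1 : ℝ) ≤ M := by exact_mod_cast hM
  have hT1 : (1 : ℝ) ≤ T := by exact_mod_cast hT
  have hq1 : (1 : ℝ) ≤ q := by exact_mod_cast Nat.one_le_iff_ne_zero.2 (NeZero.ne q)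
  have hlM0 : 0 ≤ Real.log M := Real.log_nonneg hM1
  have hlq0 : 0 ≤ Real.log q := Real.log_nonneg hq1
  have hlT0 : 0 ≤ Real.log T := Real.log_nonneg hT1
  have hΛ1 : 1 ≤ Λ := by linarith
  have hB0 : 0 < B := by linarith
  have hq0 : (0 : ℝ) < q := by linarith
  have hM0 : (0 : ℝ) < M := by linarith
  have hT0 : (0 : ℝ) < T := by linarith
  have hsq : 0 < Real.sqrt q := Real.sqrt_pos.2 hq0
  have hsq2 : Real.sqrt q ^ 2 = q := Real.sq_sqrt hq0.le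
  have hJ := JJ_le hM hΛM
  have hJ0 : (0 : ℝ) ≤ JJ M := Nat.cast_nonneg _
  obtain ⟨X, hX⟩ : ∃ X : ℝ, X = V ^ 4 / (3000 ^ 2 * Λ ^ 8 * B ^ 4 * M ^ 2 * q) := ⟨_, rfl⟩
  have hden : 0 < 3000 ^ 2 * Λ ^ 8 * B ^ 4 * M ^ 2 * q := by positivity
  have hX1 : 1 ≤ X := by
    rw [hX, le_div_iff₀ hden, one_mul]
    calc 3000 ^ 2 * Λ ^ 8 * B ^ 4 * M ^ 2 * q = (3000 * Λ ^ 4 * B ^ 2 * M * Real.sqrt q) ^ 2 := by
          rw [mul_pow, mul_pow, mul_pow, mul_pow, hsq2]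
          ring
      _ ≤ (V ^ 2) ^ 2 := pow_le_pow_left₀ (by positivity) hcond 2
      _ = V ^ 4 := by ring
  obtain ⟨H, hH⟩ : ∃ H : ℕ, H = min ⌊X⌋₊ T := ⟨_, rfl⟩
  have hH1 : 1 ≤ H := by
    rw [hH]
    exact le_min (Nat.le_floor (by simpa using hX1)) hT
  have hHX : (H : ℝ) ≤ X := by
    have : H ≤ ⌊X⌋₊ := by rw [hH]; exact min_le_left _ _
    calc (H : ℝ) ≤ (⌊X⌋₊ : ℝ) := by exact_mod_cast this
      _ ≤ X := Nat.floor_le (by linarith)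
  have hHT : (H : ℝ) ≤ T := by
    have : H ≤ T := by rw [hH]; exact min_le_right _ _
    exact_mod_cast this
  have hH1' : (1 : ℝ) ≤ H := by exact_mod_cast hH1
  have hH0 : (0 : ℝ) < H := by linarith
  have hTH : 2 * (T : ℝ) / H + 1 ≤ 3 + 4 * T / X := by
    have hpos : 0 ≤ 4 * (T : ℝ) / X := by positivity
    rcases le_total ⌊X⌋₊ T with h | h
    · have e1 : H = ⌊X⌋₊ := by rw [hH]; exact min_eq_left h
      have e2 : X / 2 ≤ H := by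
        rw [e1]
        have := Nat.lt_floor_add_one X
        have e3 : (1 : ℝ) ≤ (⌊X⌋₊ : ℝ) := by rw [← e1]; exact hH1'
        linarith
      have e4 : 2 * (T : ℝ) / H ≤ 4 * T / X := by
        rw [div_le_div_iff₀ hH0 (by linarith)]
        nlinarith
      linarith
    · have e1 : H = T := by rw [hH]; exact min_eq_right h
      rw [e1]
      have e2 : 2 * (T : ℝ) / T = 2 := by field_simp
      rw [e2]
      linarith
  have hlogH : 3 + 2 * Real.log (H + 1) ≤ 5 * Λ := by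
    have e1 : ((H : ℝ) + 1) ≤ 2 * T := by linarith
    have e2 : Real.log (H + 1) ≤ Real.log (2 * T) := Real.log_le_log (by positivity) e1
    rw [Real.log_mul (by norm_num) (by positivity)] at e2
    have e3 := Real.log_two_lt_d9
    linarith
  have hcond2 : 2 * (JJ M : ℝ) ^ 2 * (B ^ 2 * M * (q.divisors.card *
      (200 * Real.sqrt q * Real.sqrt (H + 1) + 4 * Real.sqrt q * (1 + Real.log q)))) ≤ V ^ 2 := by
    have hsH1 : 1 ≤ Real.sqrt H := Real.one_le_sqrt.2 hH1'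
    have e1 : Real.sqrt (H + 1) ≤ 3 / 2 * Real.sqrt H := by
      rw [Real.sqrt_le_left (by positivity), mul_pow, Real.sq_sqrt hH0.le]
      linarith
    have e2 : 200 * Real.sqrt q * Real.sqrt (H + 1) + 4 * Real.sqrt q * (1 + Real.log q) ≤
        Real.sqrt q * (304 * (Λ * Real.sqrt H)) := by
      have f1 : 200 * Real.sqrt q * Real.sqrt (H + 1) ≤ 200 * Real.sqrt q * (3 / 2 * Real.sqrt H) :=
        mul_le_mul_of_nonneg_left e1 (by positivity)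
      have f2 : Real.sqrt H ≤ Λ * Real.sqrt H := by nlinarith
      have f3 : 1 + Real.log q ≤ Λ * Real.sqrt H := by nlinarith
      have f4 : 4 * Real.sqrt q * (1 + Real.log q) ≤ 4 * Real.sqrt q * (Λ * Real.sqrt H) :=
        mul_le_mul_of_nonneg_left f3 (by positivity)
      have f5 : 300 * Real.sqrt q * Real.sqrt H ≤ 300 * Real.sqrt q * (Λ * Real.sqrt H) :=
        mul_le_mul_of_nonneg_left f2 (by positivity)
      nlinarith
    have e3 : 0 ≤ 200 * Real.sqrt q * Real.sqrt (H + 1) + 4 * Real.sqrt q * (1 + Real.log q) := by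
      positivity
    have e4 : 2 * (JJ M : ℝ) ^ 2 * (B ^ 2 * M * (q.divisors.card *
        (200 * Real.sqrt q * Real.sqrt (H + 1) + 4 * Real.sqrt q * (1 + Real.log q)))) ≤
        2 * (2 * Λ) ^ 2 * (B ^ 2 * M * (Λ * (Real.sqrt q * (304 * (Λ * Real.sqrt H))))) := by
      gcongr
    refine e4.trans ?_
    have e5 : 2 * (2 * Λ) ^ 2 * (B ^ 2 * M * (Λ * (Real.sqrt q * (304 * (Λ * Real.sqrt H))))) =
        2432 * (Λ ^ 4 * B ^ 2 * M * Real.sqrt q * Real.sqrt H) := by ring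
    rw [e5]
    have e6 : Real.sqrt H ≤ Real.sqrt X := Real.sqrt_le_sqrt hHX
    have e7 : Real.sqrt X = V ^ 2 / (3000 * Λ ^ 4 * B ^ 2 * M * Real.sqrt q) := by
      rw [hX, Real.sqrt_eq_iff_mul_self_eq (by positivity) (by positivity)]
      rw [div_mul_div_comm]
      congr 1
      · ring
      · have : 3000 * Λ ^ 4 * B ^ 2 * M * Real.sqrt q * (3000 * Λ ^ 4 * B ^ 2 * M * Real.sqrt q) =
            3000 ^ 2 * Λ ^ 8 * B ^ 4 * M ^ 2 * Real.sqrt q ^ 2 := by ring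
        rw [this, hsq2]
    have e8 : Λ ^ 4 * B ^ 2 * M * Real.sqrt q * Real.sqrt H ≤ V ^ 2 / 3000 := by
      calc Λ ^ 4 * B ^ 2 * M * Real.sqrt q * Real.sqrt H ≤ Λ ^ 4 * B ^ 2 * M * Real.sqrt q * Real.sqrt X :=
            mul_le_mul_of_nonneg_left e6 (by positivity)
        _ = V ^ 2 / 3000 := by
            rw [e7]
            field_simp
    have e9 : 0 ≤ V ^ 2 := sq_nonneg V
    linarith
  have h1 := hm_fullR s hs W H hH1 T hWT hM a hB0.le hB hV.le hVW hcond2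
  have h2 : (JJ M : ℝ) ^ 3 * ((2 * T / H + 1) * (240 * (B ^ 2 * M ^ 2 * (q.divisors.card *
      (3 + 2 * Real.log (H + 1)))))) ≤ 9600 * Λ ^ 5 * (B ^ 2 * M ^ 2) * (3 + 4 * T / X) := by
    have e0 : 0 ≤ 3 + 2 * Real.log ((H : ℝ) + 1) := by
      have : 0 ≤ Real.log ((H : ℝ) + 1) := Real.log_nonneg (by linarith)
      linarith
    calc (JJ M : ℝ) ^ 3 * ((2 * T / H + 1) * (240 * (B ^ 2 * M ^ 2 * (q.divisors.card *
      (3 + 2 * Real.log (H + 1)))))) ≤ (2 * Λ) ^ 3 * ((3 + 4 * T / X) * (240 * (B ^ 2 * M ^ 2 * (Λ *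
      (5 * Λ))))) := by gcongr
      _ = 9600 * Λ ^ 5 * (B ^ 2 * M ^ 2) * (3 + 4 * T / X) := by ring
  have h3 := h1.trans h2
  have hV2 : 0 < V ^ 2 := by positivity
  have h4 : (W.card : ℝ) ≤ 9600 * Λ ^ 5 * (B ^ 2 * M ^ 2) * (3 + 4 * T / X) / V ^ 2 := by
    rw [le_div_iff₀ hV2]
    exact h3
  refine h4.trans ?_
  have h5 : (T : ℝ) / X = 3000 ^ 2 * Λ ^ 8 * (q * T * (B ^ 4 * M ^ 2)) / V ^ 4 := by
    rw [hX]
    field_simp
  have h6 : 9600 * Λ ^ 5 * (B ^ 2 * M ^ 2) * (3 + 4 * T / X) / V ^ 2 =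
      28800 * Λ ^ 5 * (B ^ 2 * M ^ 2 / V ^ 2) +
        345600000000 * Λ ^ 13 * (q * T * (B ^ 6 * M ^ 4) / V ^ 6) := by
    rw [mul_div_assoc 4 (T : ℝ) X, h5]
    field_simp
    ring
  rw [h6]
  have h7 : Λ ^ 5 ≤ Λ ^ 13 := pow_le_pow_right₀ hΛ1 (by norm_num)
  have h8 : 0 ≤ B ^ 2 * M ^ 2 / V ^ 2 := by positivity
  have h9 : 0 ≤ q * T * (B ^ 6 * M ^ 4) / V ^ 6 := by positivity
  have h10 : 28800 * Λ ^ 5 * (B ^ 2 * M ^ 2 / V ^ 2) ≤ 10 ^ 12 * Λ ^ 13 * (B ^ 2 * M ^ 2 / V ^ 2) := by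
    apply mul_le_mul_of_nonneg_right _ h8
    nlinarith [pow_pos (by linarith : (0 : ℝ) < Λ) 13]
  have h11 : 345600000000 * Λ ^ 13 * (q * T * (B ^ 6 * M ^ 4) / V ^ 6) ≤
      10 ^ 12 * Λ ^ 13 * (q * T * (B ^ 6 * M ^ 4) / V ^ 6) := by
    apply mul_le_mul_of_nonneg_right _ h9
    nlinarith [pow_pos (by linarith : (0 : ℝ) < Λ) 13]
  linarith

end Pool.Agent.Helper25.WL
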