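import Pool.Agent.Helper25.WL.CellA

/-!
# WL-B: the mean value theorem for cells

`∑_χ ∑_{|k| ≤ T} |A(χ, s(χ,k))|² ≤ (3 + 2 log M) (...)` for any real points `s(χ,k) ∈ [k, k+1]`.
-/

set_option autoImplicit false

namespace Pool.Agent.Helper25.WL

open Finset MeasureTheory
open Pool.Agent.Helper25.HM

/-- a pointwise bound by integrals over a unit interval -/
lemma sobolev {f f' : ℝ → ℂ} (hf : ∀ t, HasDerivAt f (f' t) t) (hf' : Continuous f') {l : ℝ} (hl : 0 < l)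
    (k : ℝ) {s : ℝ} (hs : s ∈ Set.Icc k (k + 1)) :
    ‖f s‖ ^ 2 ≤ ∫ t in k..(k + 1), ((1 + l) * ‖f t‖ ^ 2 + ‖f' t‖ ^ 2 / l) := by
  have hfc : Continuous f := continuous_iff_continuousAt.2 fun t => (hf t).continuousAt
  have hkk : k ≤ k + 1 := by linarith
  obtain ⟨g, hg⟩ : ∃ g : ℝ → ℝ, g = fun t => ‖f t‖ ^ 2 := ⟨_, rfl⟩
  obtain ⟨g', hg'⟩ : ∃ g' : ℝ → ℝ, g' = fun t => 2 * ((f t).re * (f' t).re + (f t).im * (f' t).im) :=
    ⟨_, rfl⟩
  have hgd : ∀ t, HasDerivAt g (g' t) t := by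
    intro t
    have h1 : HasDerivAt (fun t => (f t).re) (f' t).re t := by
      have := Complex.reCLM.hasFDerivAt.comp_hasDerivAt t (hf t)
      exact this
    have h2 : HasDerivAt (fun t => (f t).im) (f' t).im t := by
      have := Complex.imCLM.hasFDerivAt.comp_hasDerivAt t (hf t)
      exact this
    have h3 : g = fun t => (f t).re * (f t).re + (f t).im * (f t).im := by
      rw [hg]
      funext t
      rw [← Complex.normSq_apply, Complex.normSq_eq_norm_sq]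
    rw [h3, hg']
    have h4 := (h1.mul h1).add (h2.mul h2)
    refine h4.congr_deriv ?_
    ring
  have hg'c : Continuous g' := by
    rw [hg']
    have a1 : Continuous fun t => (f t).re := Complex.continuous_re.comp hfc
    have a2 : Continuous fun t => (f t).im := Complex.continuous_im.comp hfc
    have a3 : Continuous fun t => (f' t).re := Complex.continuous_re.comp hf'
    have a4 : Continuous fun t => (f' t).im := Complex.continuous_im.comp hf'
    exact continuous_const.mul ((a1.mul a3).add (a2.mul a4))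
  have hbd : ∀ t, |g' t| ≤ l * ‖f t‖ ^ 2 + ‖f' t‖ ^ 2 / l := by
    intro t
    have h1 : |(f t).re * (f' t).re + (f t).im * (f' t).im| ≤ ‖f t‖ * ‖f' t‖ := by
      have e1 : (f t).re * (f' t).re + (f t).im * (f' t).im = (f t * (starRingEnd ℂ) (f' t)).re := by
        simp [Complex.mul_re]
      rw [e1]
      refine (Complex.abs_re_le_norm _).trans (le_of_eq ?_)
      rw [norm_mul, Complex.norm_conj]
    have h2 : |g' t| ≤ 2 * (‖f t‖ * ‖f' t‖) := by
      rw [hg']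
      simp only
      rw [abs_mul, abs_of_pos (by norm_num : (0 : ℝ) < 2)]
      linarith
    have h3 : 2 * (‖f t‖ * ‖f' t‖) ≤ l * ‖f t‖ ^ 2 + ‖f' t‖ ^ 2 / l := by
      have e1 : l * ‖f t‖ ^ 2 + ‖f' t‖ ^ 2 / l - 2 * (‖f t‖ * ‖f' t‖) = (l * ‖f t‖ - ‖f' t‖) ^ 2 / l := by
        field_simp
        ring
      have e2 : 0 ≤ (l * ‖f t‖ - ‖f' t‖) ^ 2 / l := by positivity
      linarith
    exact h2.trans h3
  obtain ⟨D, hD⟩ : ∃ D : ℝ, D = ∫ t in k..(k + 1), (l * ‖f t‖ ^ 2 + ‖f' t‖ ^ 2 / l) := ⟨_, rfl⟩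
  have hDc : Continuous fun t => l * ‖f t‖ ^ 2 + ‖f' t‖ ^ 2 / l := by
    have := hfc.norm
    have := hf'.norm
    fun_prop
  have hone : ∀ u ∈ Set.Icc k (k + 1), ‖f s‖ ^ 2 ≤ ‖f u‖ ^ 2 + D := by
    intro u hu
    have h1 : ∫ t in u..s, g' t = g s - g u :=
      intervalIntegral.integral_eq_sub_of_hasDerivAt (fun t _ => hgd t) (hg'c.intervalIntegrable _ _)
    have h2 : |∫ t in u..s, g' t| ≤ D := by
      rw [hD]
      have e1 : |∫ t in u..s, g' t| ≤ ∫ t in Set.uIoc u s, |g' t| := by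
        have := intervalIntegral.norm_integral_le_integral_norm_uIoc (f := g') (a := u) (b := s) (μ := volume)
        simpa [Real.norm_eq_abs] using this
      have hsub : Set.uIoc u s ⊆ Set.Ioc k (k + 1) := by
        intro y hy
        rw [Set.uIoc, Set.mem_Ioc] at hy
        have b1 : k ≤ min u s := le_min hu.1 hs.1
        have b2 : max u s ≤ k + 1 := max_le hu.2 hs.2
        exact ⟨by linarith [hy.1], by linarith [hy.2]⟩
      have e2 : ∫ t in Set.uIoc u s, |g' t| ≤ ∫ t in Set.Ioc k (k + 1), |g' t| := by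
        apply setIntegral_mono_set
        · exact (hg'c.abs.integrableOn_Icc (a := k) (b := k + 1)).mono_set Set.Ioc_subset_Icc_self
        · exact Filter.Eventually.of_forall fun t => abs_nonneg _
        · exact hsub.eventuallyLE
      have e3 : ∫ t in Set.Ioc k (k + 1), |g' t| ≤ ∫ t in Set.Ioc k (k + 1), (l * ‖f t‖ ^ 2 + ‖f' t‖ ^ 2 / l) := by
        apply setIntegral_mono_on
        · exact (hg'c.abs.integrableOn_Icc (a := k) (b := k + 1)).mono_set Set.Ioc_subset_Icc_self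
        · exact (hDc.integrableOn_Icc (a := k) (b := k + 1)).mono_set Set.Ioc_subset_Icc_self
        · exact measurableSet_Ioc
        · intro t _
          exact hbd t
      rw [intervalIntegral.integral_of_le hkk]
      linarith
    have h3 := le_abs_self (∫ t in u..s, g' t)
    rw [h1, hg] at h3
    rw [h1, hg] at h2
    simp only at h2 h3
    linarith
  have h1 : ∫ _u in k..(k + 1), ‖f s‖ ^ 2 ≤ ∫ u in k..(k + 1), (‖f u‖ ^ 2 + D) := by
    apply intervalIntegral.integral_mono_on hkk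
    · exact intervalIntegrable_const
    · have : Continuous fun u => ‖f u‖ ^ 2 + D := by
        have := hfc.norm
        fun_prop
      exact this.intervalIntegrable _ _
    · intro u hu
      exact hone u hu
  have h2 : ∫ _u in k..(k + 1), ‖f s‖ ^ 2 = ‖f s‖ ^ 2 := by
    rw [intervalIntegral.integral_const]
    simp
  have h3 : ∫ u in k..(k + 1), (‖f u‖ ^ 2 + D) = (∫ u in k..(k + 1), ‖f u‖ ^ 2) + D := by
    rw [intervalIntegral.integral_add]
    · rw [intervalIntegral.integral_const]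
      simp
    · have : Continuous fun u => ‖f u‖ ^ 2 := by
        have := hfc.norm
        fun_prop
      exact this.intervalIntegrable _ _
    · exact intervalIntegrable_const
  have h4 : ∫ t in k..(k + 1), ((1 + l) * ‖f t‖ ^ 2 + ‖f' t‖ ^ 2 / l) =
      (∫ u in k..(k + 1), ‖f u‖ ^ 2) + D := by
    rw [hD, ← intervalIntegral.integral_add]
    · apply intervalIntegral.integral_congr
      intro t _
      simp only
      ring
    · have : Continuous fun u => ‖f u‖ ^ 2 := by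
        have := hfc.norm
        fun_prop
      exact this.intervalIntegrable _ _
    · exact hDc.intervalIntegrable _ _
  rw [h4, ← h3, ← h2]
  exact h1

lemma hasDerivAt_nt (n : ℕ) (t : ℝ) : HasDerivAt (fun t => nt n t) (Complex.I * Real.log n * nt n t) t := by
  unfold nt
  have h1 : HasDerivAt (fun t : ℝ => Complex.I * ((t * Real.log n : ℝ) : ℂ)) (Complex.I * Real.log n) t := by
    have h2 : HasDerivAt (fun t : ℝ => ((t * Real.log n : ℝ) : ℂ)) ((Real.log n : ℝ) : ℂ) t := by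
      have h3 : HasDerivAt (fun t : ℝ => t * Real.log n) (Real.log n) t := by
        simpa using (hasDerivAt_id t).mul_const (Real.log n)
      exact h3.ofReal_comp
    exact h2.const_mul _
  have := h1.cexp
  convert this using 1
  ring

lemma hasDerivAt_PR {q : ℕ} (M : ℕ) (a : ℕ → ℂ) (χ : DirichletCharacter ℂ q) (t : ℝ) :
    HasDerivAt (fun t => PR M a χ t) (PR M (fun n => a n * (Complex.I * Real.log n)) χ t) t := by
  unfold PR
  have h1 : ∀ n ∈ Icc 1 M, HasDerivAt (fun t => a n * (χ (n : ZMod q) * nt n t))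
      (a n * (Complex.I * Real.log n) * (χ (n : ZMod q) * nt n t)) t := by
    intro n _
    have h2 := (((hasDerivAt_nt n t).const_mul (χ (n : ZMod q))).const_mul (a n))
    refine h2.congr_deriv ?_
    ring
  have h3 := HasDerivAt.fun_sum h1
  exact h3

lemma PR_cont {q : ℕ} (M : ℕ) (a : ℕ → ℂ) (χ : DirichletCharacter ℂ q) : Continuous fun t => PR M a χ t :=
  continuous_iff_continuousAt.2 fun t => (hasDerivAt_PR M a χ t).continuousAt

/-- The hybrid mean value theorem for cells. -/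
theorem mean_fullR {q : ℕ} [NeZero q] (s : DirichletCharacter ℂ q × ℤ → ℝ)
    (hs : ∀ p, (p.2 : ℝ) ≤ s p ∧ s p ≤ p.2 + 1) (T : ℕ) {M : ℕ} (hM : 1 ≤ M) (a : ℕ → ℂ) :
    ∑ χ : DirichletCharacter ℂ q, ∑ k ∈ Icc (-(T : ℤ)) T, ‖PR M a χ (s (χ, k))‖ ^ 2 ≤
      (3 + 2 * Real.log M) * ((JJ M) * ((q * (2 * T + 1) + 16 * M * (1 + Real.log (4 * M + 1))) *
        ∑ n ∈ Icc 1 M, ‖a n‖ ^ 2)) := by
  classical
  have hM1 : (1 : ℝ) ≤ M := by exact_mod_cast hM
  have hlM : 0 ≤ Real.log M := Real.log_nonneg hM1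
  obtain ⟨l, hl⟩ : ∃ l : ℝ, l = 1 + Real.log M := ⟨_, rfl⟩
  have hl0 : 0 < l := by rw [hl]; linarith
  obtain ⟨K, hK⟩ : ∃ K : ℝ, K = (JJ M) * ((q * (2 * T + 1) + 16 * M * (1 + Real.log (4 * M + 1)))) := ⟨_, rfl⟩
  obtain ⟨S, hS⟩ : ∃ S : ℝ, S = ∑ n ∈ Icc 1 M, ‖a n‖ ^ 2 := ⟨_, rfl⟩
  have hK0 : 0 ≤ K := by
    have : 0 ≤ Real.log (4 * M + 1) := Real.log_nonneg (by linarith)
    rw [hK]
    positivity
  have hS0 : 0 ≤ S := by rw [hS]; positivity
  obtain ⟨a', ha'⟩ : ∃ a' : ℕ → ℂ, a' = fun n => a n * (Complex.I * Real.log n) := ⟨_, rfl⟩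
  have hPR : ∀ (b : ℕ → ℂ) (χ : DirichletCharacter ℂ q) (k : ℤ) (θ : ℝ),
      PR M b χ (k + θ) = P M (fun n => b n * nt n θ) (χ, k) := by
    intro b χ k θ
    unfold PR P
    refine sum_congr rfl fun n _ => ?_
    rw [nt_add]
    ring
  have hmean : ∀ (b : ℕ → ℂ) (θ : ℝ), ∑ χ : DirichletCharacter ℂ q, ∑ k ∈ Icc (-(T : ℤ)) T,
      ‖PR M b χ (k + θ)‖ ^ 2 ≤ K * ∑ n ∈ Icc 1 M, ‖b n‖ ^ 2 := by
    intro b θ
    simp_rw [hPR]
    have h1 := mean_full (q := q) T hM (fun n => b n * nt n θ)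
    have h2 : ∀ n, ‖b n * nt n θ‖ = ‖b n‖ := fun n => by rw [norm_mul, norm_nt, mul_one]
    simp_rw [h2] at h1
    rw [hK, mul_assoc]
    exact h1
  have ha'S : ∑ n ∈ Icc 1 M, ‖a' n‖ ^ 2 ≤ l ^ 2 * S := by
    rw [hS, mul_sum]
    refine sum_le_sum fun n hn => ?_
    rw [mem_Icc] at hn
    have hn1 : (1 : ℝ) ≤ n := by exact_mod_cast hn.1
    have hnM : (n : ℝ) ≤ M := by exact_mod_cast hn.2
    have h1 : 0 ≤ Real.log n := Real.log_nonneg hn1
    have h2 : Real.log n ≤ l := by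
      rw [hl]
      have := Real.log_le_log (by linarith) hnM
      linarith
    rw [ha']
    simp only
    rw [norm_mul, norm_mul, Complex.norm_I, one_mul, Complex.norm_real, Real.norm_of_nonneg h1, mul_pow, mul_comm]
    exact mul_le_mul_of_nonneg_right (pow_le_pow_left₀ h1 h2 2) (sq_nonneg _)
  have h1 : ∀ (χ : DirichletCharacter ℂ q) (k : ℤ), ‖PR M a χ (s (χ, k))‖ ^ 2 ≤
      ∫ θ in (0 : ℝ)..1, ((1 + l) * ‖PR M a χ (k + θ)‖ ^ 2 + ‖PR M a' χ (k + θ)‖ ^ 2 / l) := by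
    intro χ k
    have h2 := sobolev (f := fun t => PR M a χ t) (f' := fun t => PR M a' χ t)
      (fun t => by rw [ha']; exact hasDerivAt_PR M a χ t) (PR_cont M a' χ) hl0 (k : ℝ)
      (s := s (χ, k)) ⟨(hs (χ, k)).1, (hs (χ, k)).2⟩
    refine h2.trans (le_of_eq ?_)
    have e9 := intervalIntegral.integral_comp_add_left (a := (0 : ℝ)) (b := 1)
      (fun t => (1 + l) * ‖PR M a χ t‖ ^ 2 + ‖PR M a' χ t‖ ^ 2 / l) (k : ℝ)
    rw [e9, add_zero]
  have hc : ∀ (b : ℕ → ℂ) (χ : DirichletCharacter ℂ q) (k : ℤ), Continuous fun θ : ℝ => PR M b χ (k + θ) := by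
    intro b χ k
    exact (PR_cont M b χ).comp (continuous_const.add continuous_id)
  have hcont : ∀ (χ : DirichletCharacter ℂ q) (k : ℤ), Continuous fun θ : ℝ =>
      ((1 + l) * ‖PR M a χ (k + θ)‖ ^ 2 + ‖PR M a' χ (k + θ)‖ ^ 2 / l) := by
    intro χ k
    have b1 := (hc a χ k).norm
    have b2 := (hc a' χ k).norm
    fun_prop
  have h2 : ∑ χ : DirichletCharacter ℂ q, ∑ k ∈ Icc (-(T : ℤ)) T, ‖PR M a χ (s (χ, k))‖ ^ 2 ≤
      ∫ θ in (0 : ℝ)..1, ∑ χ : DirichletCharacter ℂ q, ∑ k ∈ Icc (-(T : ℤ)) T,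
        ((1 + l) * ‖PR M a χ (k + θ)‖ ^ 2 + ‖PR M a' χ (k + θ)‖ ^ 2 / l) := by
    rw [intervalIntegral.integral_finset_sum]
    · refine sum_le_sum fun χ _ => ?_
      rw [intervalIntegral.integral_finset_sum]
      · exact sum_le_sum fun k _ => h1 χ k
      · intro k _
        exact (hcont χ k).intervalIntegrable _ _
    · intro χ _
      exact (continuous_finset_sum _ fun k _ => hcont χ k).intervalIntegrable _ _
  have h3 : ∀ θ : ℝ, ∑ χ : DirichletCharacter ℂ q, ∑ k ∈ Icc (-(T : ℤ)) T,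
      ((1 + l) * ‖PR M a χ (k + θ)‖ ^ 2 + ‖PR M a' χ (k + θ)‖ ^ 2 / l) ≤ (1 + 2 * l) * (K * S) := by
    intro θ
    have e1 : ∑ χ : DirichletCharacter ℂ q, ∑ k ∈ Icc (-(T : ℤ)) T,
        ((1 + l) * ‖PR M a χ (k + θ)‖ ^ 2 + ‖PR M a' χ (k + θ)‖ ^ 2 / l) =
        (1 + l) * (∑ χ : DirichletCharacter ℂ q, ∑ k ∈ Icc (-(T : ℤ)) T, ‖PR M a χ (k + θ)‖ ^ 2) +
        (∑ χ : DirichletCharacter ℂ q, ∑ k ∈ Icc (-(T : ℤ)) T, ‖PR M a' χ (k + θ)‖ ^ 2) / l := by
      simp_rw [sum_add_distrib, mul_sum, sum_div]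
    rw [e1]
    have e2 := hmean a θ
    have e3 := hmean a' θ
    rw [← hS] at e2
    have e4 : (∑ χ : DirichletCharacter ℂ q, ∑ k ∈ Icc (-(T : ℤ)) T, ‖PR M a' χ (k + θ)‖ ^ 2) / l ≤ l * (K * S) := by
      rw [div_le_iff₀ hl0]
      calc _ ≤ K * ∑ n ∈ Icc 1 M, ‖a' n‖ ^ 2 := e3
        _ ≤ K * (l ^ 2 * S) := mul_le_mul_of_nonneg_left ha'S hK0
        _ = l * (K * S) * l := by ring
    have e5 : (1 + l) * (∑ χ : DirichletCharacter ℂ q, ∑ k ∈ Icc (-(T : ℤ)) T, ‖PR M a χ (k + θ)‖ ^ 2) ≤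
        (1 + l) * (K * S) := mul_le_mul_of_nonneg_left e2 (by linarith)
    linarith
  have h4 : ∫ θ in (0 : ℝ)..1, ∑ χ : DirichletCharacter ℂ q, ∑ k ∈ Icc (-(T : ℤ)) T,
        ((1 + l) * ‖PR M a χ (k + θ)‖ ^ 2 + ‖PR M a' χ (k + θ)‖ ^ 2 / l) ≤
      ∫ _θ in (0 : ℝ)..1, (1 + 2 * l) * (K * S) := by
    apply intervalIntegral.integral_mono_on (by norm_num)
    · exact (continuous_finset_sum _ fun χ _ => continuous_finset_sum _ fun k _ => hcont χ k).intervalIntegrable _ _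
    · exact intervalIntegrable_const
    · intro θ _
      exact h3 θ
  rw [intervalIntegral.integral_const] at h4
  have h5 := h2.trans h4
  refine h5.trans (le_of_eq ?_)
  rw [hK, hS, hl]
  simp
  ring

end Pool.Agent.Helper25.WL
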