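import Pool.Agent.Helper25.WL.Factor
import Pool.Agent.Helper5.WB.Defs

/-!
# WL-FG: the number of large values of a general factor, in the form of the blueprint of theorem W
-/

set_option autoImplicit false

namespace Pool.Agent.Helper25.WL

open Finset

theorem fg : Pool.Helper5.WB.FG := by
  intro ε hε
  obtain ⟨C, hC, h⟩ := factor_gen hε
  refine ⟨C, hC, ?_⟩
  intro N r _ T M hN hT hrT hM hM2 c hc s hs W hW g hg hg2 hVW
  have hrT1 : 1 ≤ r * T := Nat.mul_pos (Nat.pos_of_ne_zero (NeZero.ne r)) hT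
  have hfl : r * T ≤ ⌊N⌋₊ := by
    apply Nat.le_floor
    push_cast
    exact hrT
  have hflN : ((⌊N⌋₊ : ℕ) : ℝ) ≤ N := Nat.floor_le (by linarith)
  have hpow : ((⌊N⌋₊ : ℕ) : ℝ) ^ ε ≤ N ^ ε := Real.rpow_le_rpow (by positivity) hflN hε.le
  have h1 := h ⌊N⌋₊ r T (hrT1.trans hfl) hT hfl s hs M hM (by exact_mod_cast hM2) c hc W (by
    intro p hp
    have h2 := hW hp
    rw [mem_product, mem_Icc] at h2
    exact abs_le.2 h2.2) g hg hg2 (by
    intro p hp
    refine le_trans ?_ (hVW p hp)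
    exact mul_le_mul_of_nonneg_left hpow (by positivity))
  have e1 : 27 * g / 11 = 27 / 11 * g := by ring
  rw [e1]
  refine h1.trans ?_
  apply mul_le_mul_of_nonneg_right _ (by positivity)
  exact mul_le_mul_of_nonneg_left hpow hC.le

end Pool.Agent.Helper25.WL
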