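import Pool.Agent.Helper25.WL.Factor
import Pool.Agent.Helper25.WL.Gen

/-!
# WL-FactorI: large values of one factor of general shape, Ingham's exponent `3g/(1+g)`
-/

set_option autoImplicit false

namespace Pool.Agent.Helper25.WL

open Finset
open Pool.Agent.Helper25.HM

/-- The choice of the power. -/
lemma choiceI {M Q g : ℝ} (hM : 1 ≤ M) (hQ : 1 ≤ Q) (hM2 : M ^ 2 ≤ 4 * Q) (hg0 : 0 < g) (hg : g ≤ 1 / 2)
    {J0 : ℕ} (hJ1 : 1 ≤ J0) (hJ : Q ^ (1 / (1 + g)) ≤ M ^ J0) :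
    ∃ j : ℕ, 1 ≤ j ∧ j ≤ J0 ∧ Q ^ (1 / (1 + g)) ≤ M ^ j ∧ M ^ j ≤ 4 * Q ^ (3 / 2 * (1 / (1 + g))) := by
  classical
  have hex : ∃ j : ℕ, 1 ≤ j ∧ Q ^ (1 / (1 + g)) ≤ M ^ j := ⟨J0, hJ1, hJ⟩
  have hQ0 : 0 < Q := by linarith
  have hM0 : 0 < M := by linarith
  have h1g : 0 < 1 + g := by linarith
  have hinv : 2 / 3 ≤ 1 / (1 + g) := by
    rw [le_div_iff₀ h1g]
    linarith
  have hQ1 : Q ≤ Q ^ (3 / 2 * (1 / (1 + g))) := by
    calc Q = Q ^ (1 : ℝ) := (Real.rpow_one Q).symm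
      _ ≤ Q ^ (3 / 2 * (1 / (1 + g))) := Real.rpow_le_rpow_of_exponent_le hQ (by linarith)
  obtain ⟨j, hjdef⟩ : ∃ j, j = Nat.find hex := ⟨_, rfl⟩
  have hj := Nat.find_spec hex
  have hmin : ∀ i, 1 ≤ i → i < j → M ^ i < Q ^ (1 / (1 + g)) := by
    intro i hi hij
    rw [hjdef] at hij
    have := Nat.find_min hex hij
    rw [not_and, not_le] at this
    exact this hi
  have hjJ : j ≤ J0 := by
    rw [hjdef]
    exact Nat.find_min' hex ⟨hJ1, hJ⟩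
  rw [← hjdef] at hj
  refine ⟨j, hj.1, hjJ, hj.2, ?_⟩
  rcases Nat.lt_or_ge j 3 with h3 | h3
  · rcases (by omega : j = 1 ∨ j = 2) with h | h
    · rw [h, pow_one]
      nlinarith
    · rw [h]
      linarith
  · have h5 := hmin (j - 1) (by omega) (by omega)
    have e1 : M ^ j = M ^ (j - 1) * M := by
      rw [← pow_succ]
      congr 1
      omega
    have e2 : M ^ 2 ≤ M ^ (j - 1) := pow_le_pow_right₀ hM (by omega)
    have e3 : M = (M ^ 2) ^ (1 / 2 : ℝ) := by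
      rw [← Real.rpow_natCast, ← Real.rpow_mul hM0.le]
      norm_num
    have e4 : M ≤ (Q ^ (1 / (1 + g))) ^ (1 / 2 : ℝ) := by
      rw [e3]
      exact Real.rpow_le_rpow (by positivity) (e2.trans h5.le) (by norm_num)
    calc M ^ j = M ^ (j - 1) * M := e1
      _ ≤ Q ^ (1 / (1 + g)) * (Q ^ (1 / (1 + g))) ^ (1 / 2 : ℝ) :=
          mul_le_mul h5.le e4 hM0.le (by positivity)
      _ = Q ^ (3 / 2 * (1 / (1 + g))) := by
          rw [← Real.rpow_mul hQ0.le, ← Real.rpow_add hQ0]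
          congr 1
          ring
      _ ≤ 4 * Q ^ (3 / 2 * (1 / (1 + g))) := by
          have : 0 ≤ Q ^ (3 / 2 * (1 / (1 + g))) := by positivity
          linarith

/-- The two terms of the mean value theorem. -/
lemma termsI {Q Y g : ℝ} (hQ : 1 ≤ Q) (hY : 1 ≤ Y) (hg : 0 < g) (hg2 : g ≤ 1 / 2)
    (h1 : Q ^ (1 / (1 + g)) ≤ Y) (h2 : Y ≤ 4 * Q ^ (3 / 2 * (1 / (1 + g)))) :
    Q * Y ^ (2 * g - 1) + Y ^ (2 * g) ≤ 5 * Q ^ (3 * g / (1 + g)) := by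
  have hQ0 : 0 < Q := by linarith
  have hY0 : 0 < Y := by linarith
  have h1g : 0 < 1 + g := by linarith
  have e1 : Q * Y ^ (2 * g - 1) ≤ Q ^ (3 * g / (1 + g)) := by
    calc Q * Y ^ (2 * g - 1) ≤ Q * (Q ^ (1 / (1 + g))) ^ (2 * g - 1) := by
          apply mul_le_mul_of_nonneg_left _ hQ0.le
          exact Real.rpow_le_rpow_of_nonpos (by positivity) h1 (by linarith)
      _ = Q ^ (3 * g / (1 + g)) := by
          rw [← Real.rpow_mul hQ0.le]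
          nth_rewrite 1 [← Real.rpow_one Q]
          rw [← Real.rpow_add hQ0]
          congr 1
          field_simp
          ring
  have e2 : Y ^ (2 * g) ≤ 4 * Q ^ (3 * g / (1 + g)) := by
    calc Y ^ (2 * g) ≤ (4 * Q ^ (3 / 2 * (1 / (1 + g)))) ^ (2 * g) :=
          Real.rpow_le_rpow hY0.le h2 (by linarith)
      _ = 4 ^ (2 * g) * Q ^ (3 * g / (1 + g)) := by
          rw [Real.mul_rpow (by norm_num) (by positivity), ← Real.rpow_mul hQ0.le]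
          congr 2
          field_simp
      _ ≤ 4 ^ (1 : ℝ) * Q ^ (3 * g / (1 + g)) := by
          apply mul_le_mul_of_nonneg_right _ (by positivity)
          exact Real.rpow_le_rpow_of_exponent_le (by norm_num) (by linarith)
      _ = 4 * Q ^ (3 * g / (1 + g)) := by rw [Real.rpow_one]
  linarith

/-- Large values of one factor of length at most about `(q T)^(1/2)`, with arbitrary coefficients,
Ingham's exponent. -/
theorem factor_genI {ε : ℝ} (hε : 0 < ε) : ∃ C : ℝ, 0 < C ∧ ∀ (N q : ℕ) [NeZero q] (T : ℕ), 1 ≤ N → 1 ≤ T →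
    q * T ≤ N → ∀ s : DirichletCharacter ℂ q × ℤ → ℝ, (∀ p, (p.2 : ℝ) ≤ s p ∧ s p ≤ p.2 + 1) →
    ∀ M : ℕ, 1 ≤ M → M ^ 2 ≤ 4 * (q * T) → ∀ c : ℕ → ℂ, (∀ n, ‖c n‖ ≤ 1) →
    ∀ W : Finset (DirichletCharacter ℂ q × ℤ), (∀ p ∈ W, |p.2| ≤ T) →
    ∀ g : ℝ, 0 < g → g ≤ 1 / 2 →
    (∀ p ∈ W, (M : ℝ) ^ (1 - g) * (N : ℝ) ^ ε ≤ ‖PR M c p.1 (s p)‖) →
    (W.card : ℝ) ≤ C * (N : ℝ) ^ ε * ((q : ℝ) * T) ^ (3 * g / (1 + g)) := by
  obtain ⟨J0, hJ0⟩ : ∃ J0 : ℕ, J0 = ⌈1 / (2 * ε)⌉₊ + 1 := ⟨_, rfl⟩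
  have hJ01 : 1 ≤ J0 := by omega
  have hJ02 : 1 ≤ 2 * ε * J0 := by
    have h1 : 1 / (2 * ε) ≤ (⌈1 / (2 * ε)⌉₊ : ℝ) := Nat.le_ceil _
    have h2 : (J0 : ℝ) = (⌈1 / (2 * ε)⌉₊ : ℝ) + 1 := by rw [hJ0]; push_cast; ring
    rw [div_le_iff₀ (by positivity)] at h1
    rw [h2]
    nlinarith
  obtain ⟨m, hm⟩ : ∃ m : ℕ, m = 3 + 2 * J0 := ⟨_, rfl⟩
  have hm0 : (0 : ℝ) < m := by
    have : 0 < m := by omega
    exact_mod_cast this
  obtain ⟨K, hK1, hK⟩ := losses (δ := ε / m) (by positivity) hJ01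
  have hK0 : 0 < K := by linarith
  refine ⟨2000 * K ^ m, by positivity, ?_⟩
  intro N q _ T hN hT hqT s hs M hM hM2 c hc W hWT g hg hg2 hVW
  have hN1 : (1 : ℝ) ≤ N := by exact_mod_cast hN
  have hN0 : (0 : ℝ) < N := by linarith
  have hT1 : (1 : ℝ) ≤ T := by exact_mod_cast hT
  have hM1 : (1 : ℝ) ≤ M := by exact_mod_cast hM
  have hM0 : (0 : ℝ) < M := by linarith
  have hq1 : (1 : ℝ) ≤ q := by exact_mod_cast Nat.one_le_iff_ne_zero.2 (NeZero.ne q)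
  have hQ1 : 1 ≤ (q : ℝ) * T := by nlinarith
  have hQN : (q : ℝ) * T ≤ N := by exact_mod_cast hqT
  have hM2' : (M : ℝ) ^ 2 ≤ 4 * ((q : ℝ) * T) := by exact_mod_cast hM2
  have hNe : 1 ≤ (N : ℝ) ^ ε := Real.one_le_rpow hN1 hε.le
  rcases W.eq_empty_or_nonempty with hW | ⟨p0, hp0⟩
  · rw [hW, card_empty, Nat.cast_zero]
    positivity
  -- the length is not too small
  have hMN : (N : ℝ) ^ (2 * ε) ≤ M := by
    have h1 := hVW p0 hp0
    have h2 := PR_triv M (B := 1) (fun n _ => hc n) p0.1 (s p0)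
    have h3 : (M : ℝ) ^ (1 - g) * (N : ℝ) ^ ε ≤ (M : ℝ) ^ (1 - g) * (M : ℝ) ^ g := by
      rw [← Real.rpow_add hM0]
      have : 1 - g + g = 1 := by ring
      rw [this, Real.rpow_one]
      linarith
    have h4 : (N : ℝ) ^ ε ≤ (M : ℝ) ^ g := le_of_mul_le_mul_left h3 (by positivity)
    have h5 : (N : ℝ) ^ ε ≤ (M : ℝ) ^ (1 / 2 : ℝ) := h4.trans (Real.rpow_le_rpow_of_exponent_le hM1 hg2)
    calc (N : ℝ) ^ (2 * ε) = ((N : ℝ) ^ ε) ^ 2 := by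
          rw [← Real.rpow_natCast, ← Real.rpow_mul hN0.le]
          congr 1
          push_cast
          ring
      _ ≤ ((M : ℝ) ^ (1 / 2 : ℝ)) ^ 2 := pow_le_pow_left₀ (by positivity) h5 2
      _ = M := by rw [← Real.sqrt_eq_rpow, Real.sq_sqrt hM0.le]
  have hJM : ((q : ℝ) * T) ^ (1 / (1 + g)) ≤ (M : ℝ) ^ J0 := by
    calc ((q : ℝ) * T) ^ (1 / (1 + g)) ≤ ((q : ℝ) * T) ^ (1 : ℝ) := by
          apply Real.rpow_le_rpow_of_exponent_le hQ1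
          rw [div_le_one (by linarith)]
          linarith
      _ = (q : ℝ) * T := Real.rpow_one _
      _ ≤ N := hQN
      _ = (N : ℝ) ^ (1 : ℝ) := (Real.rpow_one _).symm
      _ ≤ (N : ℝ) ^ (2 * ε * J0) := Real.rpow_le_rpow_of_exponent_le hN1 hJ02
      _ = ((N : ℝ) ^ (2 * ε)) ^ J0 := by rw [Real.rpow_mul hN0.le, Real.rpow_natCast]
      _ ≤ (M : ℝ) ^ J0 := pow_le_pow_left₀ (by positivity) hMN J0
  obtain ⟨j, hj1, hjJ, hja, hjb⟩ := choiceI hM1 hQ1 hM2' hg hg2 hJ01 hJM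
  -- the losses
  obtain ⟨D, hD⟩ : ∃ D : ℝ, D = K * (N : ℝ) ^ (ε / m) := ⟨_, rfl⟩
  obtain ⟨hlog, hdiv⟩ := hK N hN
  rw [← hD] at hlog hdiv
  have hD1 : 1 ≤ D := by
    rw [hD]
    have : 1 ≤ (N : ℝ) ^ (ε / m) := Real.one_le_rpow hN1 (by positivity)
    nlinarith
  have hDm : D ^ m = K ^ m * (N : ℝ) ^ ε := by
    rw [hD, mul_pow, ← Real.rpow_natCast ((N : ℝ) ^ (ε / m)), ← Real.rpow_mul hN0.le]
    congr 2
    field_simp
  have hM4N : (M : ℝ) ≤ 4 * N := by nlinarith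
  have h4N0 : 0 ≤ Real.log (4 * N) := Real.log_nonneg (by linarith)
  have hlogpow : 1 + Real.log ((M ^ j : ℕ) : ℝ) ≤ D := by
    push_cast
    rw [Real.log_pow]
    have h1 : Real.log M ≤ Real.log (4 * N) := Real.log_le_log hM0 hM4N
    have h2 : (j : ℝ) * Real.log M ≤ J0 * Real.log (4 * N) := by
      apply mul_le_mul _ h1 (Real.log_nonneg hM1) (by positivity)
      exact_mod_cast hjJ
    linarith
  have hpow : ∀ p ∈ W, ((M ^ j : ℕ) : ℝ) ^ (1 - g) ≤ ‖PR (M ^ j) (pc M c j) p.1 (s p)‖ := by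
    intro p hp
    rw [← PR_pow, norm_pow]
    have h1 := hVW p hp
    have h2 := pow_le_pow_left₀ (by positivity) h1 j
    refine le_trans ?_ h2
    rw [mul_pow]
    have e1 : ((M ^ j : ℕ) : ℝ) ^ (1 - g) = ((M : ℝ) ^ (1 - g)) ^ j := by
      push_cast
      rw [← Real.rpow_natCast, ← Real.rpow_natCast, ← Real.rpow_mul hM0.le, ← Real.rpow_mul hM0.le]
      congr 1
      ring
    rw [e1]
    exact le_mul_of_one_le_right (by positivity) (one_le_pow₀ hNe)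
  have hpc : ∀ n ∈ Icc 1 (M ^ j), ‖pc M c j n‖ ≤ D ^ J0 := by
    intro n hn
    have hX : M ^ j ≤ (4 * N) ^ J0 := by
      have e1 : M ≤ 4 * N := by exact_mod_cast hM4N
      exact (Nat.pow_le_pow_left e1 j).trans (Nat.pow_le_pow_right (by omega) hjJ)
    exact (pc_le hc hD1 hdiv j hX n hn).trans (pow_le_pow_right₀ hD1 hjJ)
  obtain ⟨Y, hYdef⟩ : ∃ Y : ℕ, Y = M ^ j := ⟨_, rfl⟩
  have hY1n : 1 ≤ Y := by rw [hYdef]; exact Nat.one_le_pow _ _ hM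
  have hY1 : (1 : ℝ) ≤ Y := by exact_mod_cast hY1n
  have hY0 : (0 : ℝ) < Y := by linarith
  have hYr : (Y : ℝ) = (M : ℝ) ^ j := by rw [hYdef]; push_cast; ring
  rw [← hYr] at hja hjb
  rw [← hYdef] at hlogpow hpow hpc
  have h3 := T1C s hs T hT hY1n (pc M c j) hpc hlogpow W hWT (V := (Y : ℝ) ^ (1 - g)) (by positivity) hpow
  have h4 := termsI hQ1 hY1 hg hg2 hja hjb
  have hV : ((Y : ℝ) ^ (1 - g)) ^ 2 = (Y : ℝ) ^ (2 - 2 * g) := by
    rw [← Real.rpow_natCast, ← Real.rpow_mul hY0.le]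
    congr 1
    push_cast
    ring
  rw [hV] at h3
  have h5 : (W.card : ℝ) ≤ 400 * D ^ 3 * ((D ^ J0) ^ 2 * ((q * T + Y) * Y)) / (Y : ℝ) ^ (2 - 2 * g) := by
    rw [le_div_iff₀ (by positivity)]
    exact h3
  have h6 : 400 * D ^ 3 * ((D ^ J0) ^ 2 * (((q : ℝ) * T + Y) * Y)) / (Y : ℝ) ^ (2 - 2 * g) =
      400 * (D ^ 3 * (D ^ J0) ^ 2) * ((q * T) * (Y : ℝ) ^ (2 * g - 1) + (Y : ℝ) ^ (2 * g)) := by
    have e1 : (Y : ℝ) ^ (2 * g - 1) = Y / (Y : ℝ) ^ (2 - 2 * g) := by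
      nth_rewrite 2 [← Real.rpow_one (Y : ℝ)]
      rw [← Real.rpow_sub hY0]
      congr 1
      ring
    have e2 : (Y : ℝ) ^ (2 * g) = Y ^ 2 / (Y : ℝ) ^ (2 - 2 * g) := by
      rw [← Real.rpow_natCast (Y : ℝ) 2, ← Real.rpow_sub hY0]
      congr 1
      push_cast
      ring
    rw [e1, e2]
    field_simp
  have h7 : D ^ 3 * (D ^ J0) ^ 2 = K ^ m * (N : ℝ) ^ ε := by
    rw [← hDm, ← pow_mul, ← pow_add, hm]
    congr 1
    ring
  rw [h6, h7] at h5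
  calc (W.card : ℝ) ≤ 400 * (K ^ m * (N : ℝ) ^ ε) * ((q * T) * (Y : ℝ) ^ (2 * g - 1) + (Y : ℝ) ^ (2 * g)) := h5
    _ ≤ 400 * (K ^ m * (N : ℝ) ^ ε) * (5 * ((q : ℝ) * T) ^ (3 * g / (1 + g))) :=
        mul_le_mul_of_nonneg_left h4 (by positivity)
    _ = _ := by ring

theorem fgI {g0 : ℝ} (hg0 : 0 < g0) : FGr (fun g => 3 * g / (1 + g)) g0 := by
  intro ε hε
  obtain ⟨C, hC, h⟩ := factor_genI hε
  refine ⟨C, hC, ?_⟩
  intro N r _ T M hN hT hrT hM hM2 c hc s hs W hW g hg hg2 hVW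
  have hrT1 : 1 ≤ r * T := Nat.mul_pos (Nat.pos_of_ne_zero (NeZero.ne r)) hT
  have hfl : r * T ≤ ⌊N⌋₊ := by
    apply Nat.le_floor
    push_cast
    exact hrT
  have hflN : ((⌊N⌋₊ : ℕ) : ℝ) ≤ N := Nat.floor_le (by linarith)
  have hpow : ((⌊N⌋₊ : ℕ) : ℝ) ^ ε ≤ N ^ ε := Real.rpow_le_rpow (by positivity) hflN hε.le
  have h1 := h ⌊N⌋₊ r T (hrT1.trans hfl) hT hfl s hs M hM (by exact_mod_cast hM2) c hc W (by
    intro p hp
    have h2 := hW hp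
    rw [mem_product, mem_Icc] at h2
    exact abs_le.2 h2.2) g (by linarith) hg2 (by
    intro p hp
    refine le_trans ?_ (hVW p hp)
    exact mul_le_mul_of_nonneg_left hpow (by positivity))
  refine h1.trans ?_
  apply mul_le_mul_of_nonneg_right _ (by positivity)
  exact mul_le_mul_of_nonneg_left hpow hC.le

end Pool.Agent.Helper25.WL
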