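import Pool.Agent.Helper25.WL.TN

/-!
# WL-Trans: from integer points to cells

If for every coefficient sequence bounded by `B` and every level `U ≥ V/(4 l)` the number of pairs `(χ, k)` with
`|P M b (χ, k)| ≥ U` is at most `R/U²`, then the number of cells with a value `≥ V` is at most `15 l (J+1) R / V²`.
-/

set_option autoImplicit false

namespace Pool.Agent.Helper25.WL

open Finset MeasureTheory
open Pool.Agent.Helper25.HM

lemma level_sq {u : ℝ} (hu : 0 < u) (J : ℕ) : ∀ F : ℝ, 0 ≤ F → F ≤ 2 ^ J * u →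
    F ^ 2 ≤ u ^ 2 + ∑ j ∈ range J, (if 2 ^ j * u ≤ F then 4 * (2 ^ j * u) ^ 2 else 0) := by
  induction J with
  | zero =>
    intro F hF hFJ
    rw [pow_zero, one_mul] at hFJ
    simp only [range_zero, sum_empty, add_zero]
    exact pow_le_pow_left₀ hF hFJ 2
  | succ J ih =>
    intro F hF hFJ
    rw [sum_range_succ]
    by_cases h : F ≤ 2 ^ J * u
    · have h1 := ih F hF h
      have h2 : 0 ≤ (if 2 ^ J * u ≤ F then 4 * (2 ^ J * u) ^ 2 else 0) := by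
        split_ifs <;> positivity
      linarith
    · push Not at h
      rw [if_pos h.le]
      have h1 : F ^ 2 ≤ (2 ^ (J + 1) * u) ^ 2 := pow_le_pow_left₀ hF hFJ 2
      have h2 : (2 ^ (J + 1) * u) ^ 2 = 4 * (2 ^ J * u) ^ 2 := by
        rw [pow_succ]
        ring
      have h3 : 0 ≤ u ^ 2 := by positivity
      have h4 : 0 ≤ ∑ j ∈ range J, (if 2 ^ j * u ≤ F then 4 * (2 ^ j * u) ^ 2 else 0) :=
        sum_nonneg fun j _ => by split_ifs <;> positivity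
      linarith

lemma sum_sq_levels {ι : Type*} (s : Finset ι) (F : ι → ℝ) {u R : ℝ} (hu : 0 < u)
    (hF : ∀ i ∈ s, 0 ≤ F i) (J : ℕ) (hJ : ∀ i ∈ s, F i ≤ 2 ^ J * u)
    (hlarge : ∀ U : ℝ, u ≤ U → ((s.filter (fun i => U ≤ F i)).card : ℝ) * U ^ 2 ≤ R) :
    ∑ i ∈ s, F i ^ 2 ≤ s.card * u ^ 2 + 4 * J * R := by
  have h1 : ∑ i ∈ s, F i ^ 2 ≤ ∑ i ∈ s, (u ^ 2 +
      ∑ j ∈ range J, (if 2 ^ j * u ≤ F i then 4 * (2 ^ j * u) ^ 2 else 0)) :=
    sum_le_sum fun i hi => level_sq hu J (F i) (hF i hi) (hJ i hi)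
  refine h1.trans ?_
  rw [sum_add_distrib, sum_const, nsmul_eq_mul, sum_comm]
  have h2 : ∀ j ∈ range J, ∑ i ∈ s, (if 2 ^ j * u ≤ F i then 4 * (2 ^ j * u) ^ 2 else 0) ≤ 4 * R := by
    intro j _
    rw [← sum_filter, sum_const, nsmul_eq_mul]
    have hVj : u ≤ 2 ^ j * u := by
      have : (1 : ℝ) ≤ 2 ^ j := one_le_pow₀ (by norm_num)
      nlinarith
    have h3 := hlarge (2 ^ j * u) hVj
    linarith
  have h3 := sum_le_sum h2
  rw [sum_const, card_range, nsmul_eq_mul] at h3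
  linarith

theorem transfer {q : ℕ} [NeZero q] (s : DirichletCharacter ℂ q × ℤ → ℝ)
    (hs : ∀ p, (p.2 : ℝ) ≤ s p ∧ s p ≤ p.2 + 1) {M : ℕ} (hM : 1 ≤ M) (a : ℕ → ℂ)
    {B : ℝ} (hB : ∀ n ∈ Icc 1 M, ‖a n‖ ≤ B)
    (W : Finset (DirichletCharacter ℂ q × ℤ)) {V : ℝ} (hV : 0 < V)
    (hVW : ∀ p ∈ W, V ≤ ‖PR M a p.1 (s p)‖) {l : ℝ} (hl : 1 + Real.log M ≤ l) {R : ℝ} (J : ℕ)
    (hJ : M * B ≤ 2 ^ J * (V / (4 * l)))
    (hF : ∀ b : ℕ → ℂ, (∀ n ∈ Icc 1 M, ‖b n‖ ≤ B) → ∀ U : ℝ, V / (4 * l) ≤ U →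
      ∀ W' : Finset (DirichletCharacter ℂ q × ℤ), W' ⊆ W → (∀ p ∈ W', U ≤ ‖P M b p‖) →
        (W'.card : ℝ) * U ^ 2 ≤ R) :
    (W.card : ℝ) * V ^ 2 ≤ 15 * l * (J * R) := by
  classical
  have hM1 : (1 : ℝ) ≤ M := by exact_mod_cast hM
  have hlM0 : 0 ≤ Real.log M := Real.log_nonneg hM1
  have hl1 : 1 ≤ l := by linarith
  have hl0 : 0 < l := by linarith
  have hB0 : 0 ≤ B := (norm_nonneg _).trans (hB 1 (mem_Icc.2 ⟨le_rfl, hM⟩))
  obtain ⟨u, hu⟩ : ∃ u : ℝ, u = V / (4 * l) := ⟨_, rfl⟩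
  rw [← hu] at hJ
  simp only [← hu] at hF
  have hu0 : 0 < u := by rw [hu]; positivity
  obtain ⟨a', ha'⟩ : ∃ a' : ℕ → ℂ, a' = fun n => a n * (Complex.I * Real.log n) := ⟨_, rfl⟩
  obtain ⟨b', hb'⟩ : ∃ b' : ℕ → ℂ, b' = fun n => a n * (Complex.I * Real.log n) / (l : ℂ) := ⟨_, rfl⟩
  have hb'B : ∀ n ∈ Icc 1 M, ‖b' n‖ ≤ B := by
    intro n hn
    have hn' := mem_Icc.1 hn
    have hn1 : (1 : ℝ) ≤ n := by exact_mod_cast hn'.1
    have hnM : (n : ℝ) ≤ M := by exact_mod_cast hn'.2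
    have h1 : 0 ≤ Real.log n := Real.log_nonneg hn1
    have h2 : Real.log n ≤ l := by
      have := Real.log_le_log (by linarith) hnM
      linarith
    rw [hb']
    simp only
    rw [norm_div, norm_mul, norm_mul, Complex.norm_I, one_mul, Complex.norm_real, Complex.norm_real,
      Real.norm_of_nonneg h1, Real.norm_of_nonneg hl0.le, div_le_iff₀ hl0]
    exact mul_le_mul (hB n hn) h2 h1 hB0
  have hPRb : ∀ (χ : DirichletCharacter ℂ q) (t : ℝ), PR M a' χ t = l * PR M b' χ t := by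
    intro χ t
    unfold PR
    rw [mul_sum, ha', hb']
    refine sum_congr rfl fun n _ => ?_
    have : (l : ℂ) ≠ 0 := by exact_mod_cast hl0.ne'
    simp only
    field_simp
  have hPR : ∀ (b : ℕ → ℂ) (χ : DirichletCharacter ℂ q) (k : ℤ) (θ : ℝ),
      PR M b χ (k + θ) = P M (fun n => b n * nt n θ) (χ, k) := by
    intro b χ k θ
    unfold PR P
    refine sum_congr rfl fun n _ => ?_
    rw [nt_add]
    ring
  -- the level estimate at fixed θ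
  have hlev : ∀ b : ℕ → ℂ, (∀ n ∈ Icc 1 M, ‖b n‖ ≤ B) → ∀ θ : ℝ,
      ∑ p ∈ W, ‖PR M b p.1 (p.2 + θ)‖ ^ 2 ≤ W.card * u ^ 2 + 4 * J * R := by
    intro b hb θ
    apply sum_sq_levels W (fun p => ‖PR M b p.1 (p.2 + θ)‖) hu0 (fun _ _ => norm_nonneg _) J
    · intro p _
      exact (PR_triv M hb p.1 _).trans hJ
    · intro U hU
      refine hF (fun n => b n * nt n θ) (fun n hn => ?_) U hU _ (filter_subset _ _) (fun p hp => ?_)
      · rw [norm_mul, norm_nt, mul_one]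
        exact hb n hn
      · rw [← hPR]
        exact (mem_filter.1 hp).2
  -- pointwise bound by integrals
  have hc : ∀ (b : ℕ → ℂ) (χ : DirichletCharacter ℂ q) (k : ℤ), Continuous fun θ : ℝ => PR M b χ (k + θ) := by
    intro b χ k
    exact (PR_cont M b χ).comp (continuous_const.add continuous_id)
  have hcont : ∀ (χ : DirichletCharacter ℂ q) (k : ℤ), Continuous fun θ : ℝ =>
      ((1 + l) * ‖PR M a χ (k + θ)‖ ^ 2 + l * ‖PR M b' χ (k + θ)‖ ^ 2) := by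
    intro χ k
    have b1 := (hc a χ k).norm
    have b2 := (hc b' χ k).norm
    fun_prop
  have h1 : ∀ p ∈ W, V ^ 2 ≤
      ∫ θ in (0 : ℝ)..1, ((1 + l) * ‖PR M a p.1 (p.2 + θ)‖ ^ 2 + l * ‖PR M b' p.1 (p.2 + θ)‖ ^ 2) := by
    intro p hp
    have h2 := sobolev (f := fun t => PR M a p.1 t) (f' := fun t => PR M a' p.1 t)
      (fun t => by rw [ha']; exact hasDerivAt_PR M a p.1 t) (PR_cont M a' p.1) hl0 (p.2 : ℝ)
      (s := s p) ⟨(hs p).1, (hs p).2⟩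
    have e9 := intervalIntegral.integral_comp_add_left (a := (0 : ℝ)) (b := 1)
      (fun t => (1 + l) * ‖PR M a p.1 t‖ ^ 2 + ‖PR M a' p.1 t‖ ^ 2 / l) (p.2 : ℝ)
    rw [add_zero] at e9
    have e10 : (fun θ : ℝ => ((1 + l) * ‖PR M a p.1 (p.2 + θ)‖ ^ 2 + l * ‖PR M b' p.1 (p.2 + θ)‖ ^ 2)) =
        fun θ : ℝ => ((1 + l) * ‖PR M a p.1 (p.2 + θ)‖ ^ 2 + ‖PR M a' p.1 (p.2 + θ)‖ ^ 2 / l) := by
      funext θ
      rw [hPRb, norm_mul, Complex.norm_real, Real.norm_of_nonneg hl0.le]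
      congr 1
      field_simp
    rw [e10, e9]
    exact (pow_le_pow_left₀ hV.le (hVW p hp) 2).trans h2
  have h2 : (W.card : ℝ) * V ^ 2 ≤ ∫ θ in (0 : ℝ)..1, ∑ p ∈ W,
      ((1 + l) * ‖PR M a p.1 (p.2 + θ)‖ ^ 2 + l * ‖PR M b' p.1 (p.2 + θ)‖ ^ 2) := by
    rw [intervalIntegral.integral_finset_sum]
    · calc (W.card : ℝ) * V ^ 2 = ∑ _p ∈ W, V ^ 2 := by rw [sum_const, nsmul_eq_mul]
        _ ≤ _ := sum_le_sum h1
    · intro p _
      exact (hcont p.1 p.2).intervalIntegrable _ _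
  have h3 : ∀ θ : ℝ, ∑ p ∈ W,
      ((1 + l) * ‖PR M a p.1 (p.2 + θ)‖ ^ 2 + l * ‖PR M b' p.1 (p.2 + θ)‖ ^ 2) ≤
      (1 + 2 * l) * (W.card * u ^ 2 + 4 * J * R) := by
    intro θ
    rw [sum_add_distrib, ← mul_sum, ← mul_sum]
    have e1 := mul_le_mul_of_nonneg_left (hlev a hB θ) (by linarith : 0 ≤ 1 + l)
    have e2 := mul_le_mul_of_nonneg_left (hlev b' hb'B θ) hl0.le
    linarith
  have h4 : ∫ θ in (0 : ℝ)..1, ∑ p ∈ W,
      ((1 + l) * ‖PR M a p.1 (p.2 + θ)‖ ^ 2 + l * ‖PR M b' p.1 (p.2 + θ)‖ ^ 2) ≤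
      ∫ _θ in (0 : ℝ)..1, (1 + 2 * l) * (W.card * u ^ 2 + 4 * J * R) := by
    apply intervalIntegral.integral_mono_on (by norm_num)
    · exact (continuous_finset_sum _ fun p _ => hcont p.1 p.2).intervalIntegrable _ _
    · exact intervalIntegrable_const
    · intro θ _
      exact h3 θ
  rw [intervalIntegral.integral_const, sub_zero, one_smul] at h4
  have h5 := h2.trans h4
  have hR0 : 0 ≤ J * R := by
    have e1 := hF a hB u le_rfl ∅ (empty_subset _) (by simp)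
    rw [card_empty, Nat.cast_zero, zero_mul] at e1
    positivity
  have h6 : u ^ 2 = V ^ 2 / (16 * l ^ 2) := by
    rw [hu, div_pow]
    congr 1
    ring
  have hW0 : 0 ≤ (W.card : ℝ) * V ^ 2 := by positivity
  have h7 : (1 + 2 * l) * (W.card * u ^ 2) ≤ 3 / 16 * (W.card * V ^ 2) := by
    rw [h6]
    have e1 : (1 + 2 * l) * (W.card * (V ^ 2 / (16 * l ^ 2))) = (W.card * V ^ 2) * ((1 + 2 * l) / (16 * l ^ 2)) := by
      field_simp
    rw [e1, mul_comm]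
    apply mul_le_mul_of_nonneg_right _ hW0
    rw [div_le_div_iff₀ (by positivity) (by norm_num)]
    nlinarith
  have h8 : (1 + 2 * l) * (4 * J * R) ≤ 12 * l * (J * R) := by nlinarith
  have h9 : (W.card : ℝ) * V ^ 2 ≤ 3 / 16 * (W.card * V ^ 2) + 12 * l * (J * R) := by
    calc (W.card : ℝ) * V ^ 2 ≤ (1 + 2 * l) * (W.card * u ^ 2 + 4 * J * R) := h5
      _ = (1 + 2 * l) * (W.card * u ^ 2) + (1 + 2 * l) * (4 * J * R) := by ring
      _ ≤ _ := add_le_add h7 h8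
  have h10 : 0 ≤ l * (J * R) := by positivity
  linarith

end Pool.Agent.Helper25.WL
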